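import Pool.Agent.V113.Ser.Ode

set_option autoImplicit false
open Finset Filter Topology

namespace Pool.Agent.V113.Ser

lemma Tf_ge (d : ℕ) (hd : 1 ≤ d) {y : ℝ} (hy : 0 ≤ y) (Φ φ : ℝ → ℝ)
    (hΦ : ∀ u, 0 ≤ u → HasDerivAt Φ (φ u) u) (h : ∀ u, 0 < u → u < y → φ u ≤ hh d u) :
    Φ y - Φ 0 ≤ Tf d y := by
  have hD : ∀ u, 0 ≤ u → HasDerivAt (fun u => Tf d u - Φ u) (hh d u - φ u) u := fun u hu =>
    (Tf_hasDeriv d hd u).sub (hΦ u hu)
  have hm : MonotoneOn (fun u => Tf d u - Φ u) (Set.Icc 0 y) := by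
    apply monotoneOn_of_deriv_nonneg (convex_Icc 0 y)
    · intro u hu
      exact (hD u hu.1).continuousAt.continuousWithinAt
    · intro u hu
      rw [interior_Icc] at hu
      exact (hD u hu.1.le).differentiableAt.differentiableWithinAt
    · intro u hu
      rw [interior_Icc] at hu
      rw [(hD u hu.1.le).deriv]
      linarith [h u hu.1 hu.2]
  have := hm (Set.left_mem_Icc.mpr hy) (Set.right_mem_Icc.mpr hy) hy
  simp only [Tf_zero] at this
  linarith

lemma Tf_le (d : ℕ) (hd : 1 ≤ d) {y : ℝ} (hy : 0 ≤ y) (Φ φ : ℝ → ℝ)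
    (hΦ : ∀ u, 0 ≤ u → HasDerivAt Φ (φ u) u) (h : ∀ u, 0 < u → u < y → hh d u ≤ φ u) :
    Tf d y ≤ Φ y - Φ 0 := by
  have hD : ∀ u, 0 ≤ u → HasDerivAt (fun u => Φ u - Tf d u) (φ u - hh d u) u := fun u hu =>
    (hΦ u hu).sub (Tf_hasDeriv d hd u)
  have hm : MonotoneOn (fun u => Φ u - Tf d u) (Set.Icc 0 y) := by
    apply monotoneOn_of_deriv_nonneg (convex_Icc 0 y)
    · intro u hu
      exact (hD u hu.1).continuousAt.continuousWithinAt
    · intro u hu
      rw [interior_Icc] at hu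
      exact (hD u hu.1.le).differentiableAt.differentiableWithinAt
    · intro u hu
      rw [interior_Icc] at hu
      rw [(hD u hu.1.le).deriv]
      linarith [h u hu.1 hu.2]
  have := hm (Set.left_mem_Icc.mpr hy) (Set.right_mem_Icc.mpr hy) hy
  simp only [Tf_zero] at this
  linarith

lemma hh_eq (d : ℕ) {u : ℝ} (hu : 0 ≤ u) : hh d u = (1 - G u) / (1 - G u ^ d) := by
  have h : S d (G u) * (1 - G u) = 1 - G u ^ d := geom_sum_mul_neg (G u) d
  have h1 : 0 < 1 - G u := by linarith [G_lt_one hu]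
  unfold hh
  rw [max_eq_left hu, ← h]
  by_cases hS : S d (G u) = 0
  · rw [hS]; simp
  · field_simp

lemma Gpow_hasDeriv (N : ℕ) (u : ℝ) :
    HasDerivAt (fun u => G u ^ (N + 1) / ((N : ℝ) + 1)) (G u ^ N * (u * Real.exp (-u))) u := by
  have h := ((G_hasDeriv u).pow (N + 1)).div_const ((N : ℝ) + 1)
  refine h.congr_deriv ?_
  have : ((N : ℝ) + 1) ≠ 0 := by positivity
  push_cast
  field_simp

lemma base_hasDeriv (u : ℝ) :
    HasDerivAt (fun u : ℝ => 2 - Real.exp (-u) * (2 + u)) (Real.exp (-u) * (1 + u)) u := by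
  have h1 := exp_neg_hasDeriv u
  have h2 : HasDerivAt (fun u : ℝ => 2 + u) 1 u := (hasDerivAt_id u).const_add 2
  have := (h1.mul h2).const_sub 2
  refine this.congr_deriv ?_
  ring

theorem lowerT (d : ℕ) (hd : 1 ≤ d) (m : ℕ) {y : ℝ} (hy : 0 < y) :
    2 - Real.exp (-y) * (2 + y) + (1 + 1 / y) *
      ∑ k ∈ range m, G y ^ ((k + 1) * d + 1) / ((((k + 1) * d : ℕ) : ℝ) + 1) ≤ Tf d y := by
  have key := Tf_ge d hd hy.le
    (fun u => 2 - Real.exp (-u) * (2 + u) + (1 + 1 / y) *
      ∑ k ∈ range m, G u ^ ((k + 1) * d + 1) / ((((k + 1) * d : ℕ) : ℝ) + 1))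
    (fun u => Real.exp (-u) * (1 + u) + (1 + 1 / y) *
      ∑ k ∈ range m, G u ^ ((k + 1) * d) * (u * Real.exp (-u))) ?_ ?_
  · have h0 : (2 - Real.exp (-0) * (2 + 0) + (1 + 1 / y) *
        ∑ k ∈ range m, G 0 ^ ((k + 1) * d + 1) / ((((k + 1) * d : ℕ) : ℝ) + 1) : ℝ) = 0 := by
      rw [G_zero]
      simp
    linarith
  · intro u hu
    refine (base_hasDeriv u).add (HasDerivAt.const_mul _ ?_)
    exact HasDerivAt.fun_sum fun k _ => Gpow_hasDeriv ((k + 1) * d) u
  · intro u hu huy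
    rw [hh_eq d hu.le]
    have hG0 := G_nonneg hu.le
    have hG1 := G_lt_one hu.le
    have hGe : 1 - G u = Real.exp (-u) * (1 + u) := by unfold G; ring
    set W := G u ^ d with hW
    have hW0 : 0 ≤ W := pow_nonneg hG0 d
    have hW1 : W < 1 := pow_lt_one₀ hG0 hG1 (by omega)
    have hsum : ∑ k ∈ range m, G u ^ ((k + 1) * d) * (u * Real.exp (-u))
        = (∑ k ∈ range m, W ^ (k + 1)) * (u * Real.exp (-u)) := by
      rw [Finset.sum_mul]
      refine Finset.sum_congr rfl fun k _ => ?_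
      rw [hW, ← pow_mul, mul_comm d]
    rw [hsum]
    have hSn : 0 ≤ ∑ k ∈ range m, W ^ (k + 1) := Finset.sum_nonneg fun k _ => pow_nonneg hW0 _
    have hgeo : (1 + ∑ k ∈ range m, W ^ (k + 1)) * (1 - W) = 1 - W ^ (m + 1) := by
      rw [← geom_sum_mul_neg W (m + 1), Finset.sum_range_succ', pow_zero, add_comm]
    have h1 : (1 + 1 / y) * (u * Real.exp (-u)) ≤ 1 - G u := by
      rw [hGe]
      have : (1 + 1 / y) * u ≤ 1 + u := by
        have : u / y ≤ 1 := (div_le_one hy).mpr huy.le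
        calc (1 + 1 / y) * u = u + u / y := by ring
          _ ≤ 1 + u := by linarith
      calc (1 + 1 / y) * (u * Real.exp (-u)) = Real.exp (-u) * ((1 + 1 / y) * u) := by ring
        _ ≤ _ := mul_le_mul_of_nonneg_left this (Real.exp_pos _).le
    rw [le_div_iff₀ (by linarith), ← hGe]
    calc (1 - G u + (1 + 1 / y) * ((∑ k ∈ range m, W ^ (k + 1)) * (u * Real.exp (-u)))) * (1 - W)
        = (1 - G u + (∑ k ∈ range m, W ^ (k + 1)) * ((1 + 1 / y) * (u * Real.exp (-u)))) * (1 - W) := by ring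
      _ ≤ (1 - G u + (∑ k ∈ range m, W ^ (k + 1)) * (1 - G u)) * (1 - W) := by
          have : 0 ≤ 1 - W := by linarith
          gcongr
      _ = (1 - G u) * ((1 + ∑ k ∈ range m, W ^ (k + 1)) * (1 - W)) := by ring
      _ = (1 - G u) * (1 - W ^ (m + 1)) := by rw [hgeo]
      _ ≤ (1 - G u) * 1 := by
          have : 0 ≤ 1 - G u := by linarith
          have := pow_nonneg hW0 (m + 1)
          gcongr
          linarith
      _ = 1 - G u := by ring

theorem upperT (l : ℕ) (hl : 1 ≤ l) {y a : ℝ} (ha : 0 < a) (hay : a ≤ y) :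
    Tf l y ≤ (1 + G a ^ l / (1 - G a ^ l)) * (2 - Real.exp (-y) * (2 + y))
      + (1 + 1 / a) * (-(Real.log (1 - G y ^ l)) / l) := by
  have hy : 0 < y := lt_of_lt_of_le ha hay
  have hlr : (0 : ℝ) < l := by exact_mod_cast hl
  set Wa := G a ^ l with hWa
  have hWa0 : 0 ≤ Wa := pow_nonneg (G_nonneg ha.le) l
  have hWa1 : Wa < 1 := pow_lt_one₀ (G_nonneg ha.le) (G_lt_one ha.le) (by omega)
  have key := Tf_le l hl hy.le
    (fun u => (1 + Wa / (1 - Wa)) * (2 - Real.exp (-u) * (2 + u))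
      + (1 + 1 / a) * (-(Real.log (1 - G u ^ l)) / l))
    (fun u => (1 + Wa / (1 - Wa)) * (Real.exp (-u) * (1 + u))
      + (1 + 1 / a) * (G u ^ (l - 1) * (u * Real.exp (-u)) / (1 - G u ^ l))) ?_ ?_
  · have h0 : ((1 + Wa / (1 - Wa)) * (2 - Real.exp (-0) * (2 + 0))
      + (1 + 1 / a) * (-(Real.log (1 - G 0 ^ l)) / l) : ℝ) = 0 := by
      rw [G_zero, zero_pow (by omega)]
      simp
    linarith
  · intro u hu
    refine ((base_hasDeriv u).const_mul _).add (HasDerivAt.const_mul _ ?_)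
    have hG0 := G_nonneg hu
    have hG1 := G_lt_one hu
    have hW1 : G u ^ l < 1 := pow_lt_one₀ hG0 hG1 (by omega)
    have hne : 1 - G u ^ l ≠ 0 := by linarith
    have h := (((((G_hasDeriv u).pow l).const_sub 1).log hne).neg).div_const (l : ℝ)
    refine h.congr_deriv ?_
    have hp : (G ^ l) u = G u ^ l := rfl
    rw [hp]
    field_simp
  · intro u hu huy
    rw [hh_eq l hu.le]
    have hG0 := G_nonneg hu.le
    have hG1 := G_lt_one hu.le
    have hGe : 1 - G u = Real.exp (-u) * (1 + u) := by unfold G; ring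
    have hW1 : G u ^ l < 1 := pow_lt_one₀ hG0 hG1 (by omega)
    have hW0 : 0 ≤ G u ^ l := pow_nonneg hG0 l
    have hrho : 1 + Wa / (1 - Wa) = 1 / (1 - Wa) := by
      have : 1 - Wa ≠ 0 := by linarith
      field_simp
      ring
    have hnn : 0 ≤ (1 + 1 / a) * (G u ^ (l - 1) * (u * Real.exp (-u)) / (1 - G u ^ l)) := by
      have : 0 < 1 - G u ^ l := by linarith
      have := pow_nonneg hG0 (l - 1)
      positivity
    rcases le_total u a with hua | hua
    · have hWW : G u ^ l ≤ Wa := pow_le_pow_left₀ hG0 (G_mono hu.le (show (0:ℝ) ≤ a from ha.le) hua) l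
      rw [← hGe, hrho]
      have : (1 - G u) / (1 - G u ^ l) ≤ 1 / (1 - Wa) * (1 - G u) := by
        rw [div_mul_eq_mul_div, one_mul]
        apply div_le_div_of_nonneg_left (by linarith) (by linarith) (by linarith)
      linarith
    · have h1 : (1 - G u) / (1 - G u ^ l) = (1 - G u) + (1 - G u) * G u ^ l / (1 - G u ^ l) := by
        have : 1 - G u ^ l ≠ 0 := by linarith
        field_simp
        ring
      rw [h1]
      have h2 : 1 - G u ≤ (1 + Wa / (1 - Wa)) * (Real.exp (-u) * (1 + u)) := by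
        rw [← hGe]
        have : 0 ≤ Wa / (1 - Wa) := div_nonneg hWa0 (by linarith)
        nlinarith
      have h3 : (1 - G u) * G u ^ l / (1 - G u ^ l)
          ≤ (1 + 1 / a) * (G u ^ (l - 1) * (u * Real.exp (-u)) / (1 - G u ^ l)) := by
        rw [← mul_div_assoc]
        apply div_le_div_of_nonneg_right _ (by linarith)
        have h4 : G u ^ l ≤ G u ^ (l - 1) := pow_le_pow_of_le_one hG0 hG1.le (by omega)
        have h5 : 1 - G u ≤ (1 + 1 / a) * (u * Real.exp (-u)) := by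
          rw [hGe]
          have : 1 + u ≤ (1 + 1 / a) * u := by
            have : 1 ≤ u / a := (one_le_div ha).mpr hua
            calc 1 + u ≤ u + u / a := by linarith
              _ = (1 + 1 / a) * u := by ring
          calc Real.exp (-u) * (1 + u) ≤ Real.exp (-u) * ((1 + 1 / a) * u) :=
                mul_le_mul_of_nonneg_left this (Real.exp_pos _).le
            _ = _ := by ring
        calc (1 - G u) * G u ^ l ≤ ((1 + 1 / a) * (u * Real.exp (-u))) * G u ^ (l - 1) := by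
              have : 0 ≤ 1 - G u := by linarith
              gcongr
          _ = _ := by ring
      linarith

end Pool.Agent.V113.Ser
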