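import Pool.Agent.V113.Ser.Stmt

set_option autoImplicit false
open Finset

namespace Pool.Agent.V113.Ser

variable {n d : ℕ}

/-- update by the outcome -/
def nxt (c : Fin n → ℕ) (o : Option (Fin n)) : Fin n → ℕ := fun v => c v + if o = some v then 1 else 0

def Z0 (c : Fin n → ℕ) : ℕ := (univ.filter fun v => c v = 0).card
def Z1 (c : Fin n → ℕ) : ℕ := (univ.filter fun v => c v = 1).card
def Fu (c : Fin n → ℕ) : ℕ := (univ.filter fun v => ¬ c v < 2).card

lemma nxt_none (c : Fin n → ℕ) : nxt c none = c := by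
  funext v; simp [nxt]

lemma Z_sum (c : Fin n → ℕ) : Z0 c + Z1 c + Fu c = n := by
  have h : (univ : Finset (Fin n)) = (univ.filter fun v => c v = 0) ∪
      ((univ.filter fun v => c v = 1) ∪ (univ.filter fun v => ¬ c v < 2)) := by
    ext v; simp; omega
  have h2 : (univ : Finset (Fin n)).card = n := by simp
  rw [h, card_union_of_disjoint, card_union_of_disjoint] at h2
  · unfold Z0 Z1 Fu; omega
  · rw [Finset.disjoint_left]; intro v; simp; omega
  · rw [Finset.disjoint_left]; intro v; simp; omega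

lemma Z0_nxt0 (c : Fin n → ℕ) (v : Fin n) (h : c v = 0) : Z0 (nxt c (some v)) = Z0 c - 1 := by
  have : (univ.filter fun w => nxt c (some v) w = 0) = (univ.filter fun w => c w = 0).erase v := by
    ext w; simp only [nxt, mem_filter, mem_univ, true_and, mem_erase, Option.some.injEq]
    by_cases hw : v = w
    · subst hw; simp
    · simp [hw, Ne.symm hw]
  unfold Z0; rw [this, card_erase_of_mem]; simpa using h

lemma Z1_nxt0 (c : Fin n → ℕ) (v : Fin n) (h : c v = 0) : Z1 (nxt c (some v)) = Z1 c + 1 := by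
  have : (univ.filter fun w => nxt c (some v) w = 1) = insert v (univ.filter fun w => c w = 1) := by
    ext w; simp only [nxt, mem_filter, mem_univ, true_and, mem_insert, Option.some.injEq]
    by_cases hw : v = w
    · subst hw; simp [h]
    · simp [hw, Ne.symm hw]
  unfold Z1; rw [this, card_insert_of_notMem]; simp [h]

lemma Z0_nxt1 (c : Fin n → ℕ) (v : Fin n) (h : c v = 1) : Z0 (nxt c (some v)) = Z0 c := by
  have : (univ.filter fun w => nxt c (some v) w = 0) = (univ.filter fun w => c w = 0) := by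
    ext w; simp only [nxt, mem_filter, mem_univ, true_and, Option.some.injEq]
    by_cases hw : v = w
    · subst hw; simp [h]
    · simp [hw]
  unfold Z0; rw [this]

lemma Z1_nxt1 (c : Fin n → ℕ) (v : Fin n) (h : c v = 1) : Z1 (nxt c (some v)) = Z1 c - 1 := by
  have : (univ.filter fun w => nxt c (some v) w = 1) = (univ.filter fun w => c w = 1).erase v := by
    ext w; simp only [nxt, mem_filter, mem_univ, true_and, mem_erase, Option.some.injEq]
    by_cases hw : v = w
    · subst hw; simp [h]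
    · simp [hw, Ne.symm hw]
  unfold Z1; rw [this, card_erase_of_mem]; simpa using h

/-- number of lists with outcome `o` -/
noncomputable def cnt (d : ℕ) (c : Fin n → ℕ) (o : Option (Fin n)) : ℕ :=
  (univ.filter fun L : Fin d ↪ Fin n => seat 2 c L = o).card

lemma cnt_full (c : Fin n → ℕ) (v : Fin n) (h : ¬ c v < 2) : cnt d c (some v) = 0 := by
  unfold cnt
  rw [card_eq_zero, filter_eq_empty_iff]
  intro L _ hL
  have := List.find?_some hL
  simp at this
  omega

lemma seat_equiv (c : Fin n → ℕ) (e : Fin n ≃ Fin n) (he : ∀ w, c (e w) < 2 ↔ c w < 2)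
    (L : Fin d ↪ Fin n) : seat 2 c (L.trans e.toEmbedding) = (seat 2 c L).map e := by
  unfold seat
  have h1 : (List.ofFn fun k => (L.trans e.toEmbedding) k) = (List.ofFn fun k => L k).map e := by
    rw [List.map_ofFn]; rfl
  rw [h1, List.find?_map]
  congr 1
  congr 1
  funext w
  exact decide_eq_decide.mpr (he w)

lemma cnt_eq (c : Fin n → ℕ) (v w : Fin n) (hv : c v < 2) (hw : c w < 2) :
    cnt d c (some v) = cnt d c (some w) := by
  unfold cnt
  set e : Fin n ≃ Fin n := Equiv.swap v w with he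
  have hee : ∀ u, c (e u) < 2 ↔ c u < 2 := by
    intro u
    rw [he]
    by_cases h1 : u = v
    · subst h1; rw [Equiv.swap_apply_left]; simp [hv, hw]
    · by_cases h2 : u = w
      · subst h2; rw [Equiv.swap_apply_right]; simp [hv, hw]
      · rw [Equiv.swap_apply_of_ne_of_ne h1 h2]
  refine card_bij' (fun L _ => L.trans e.toEmbedding) (fun L _ => L.trans e.toEmbedding) ?_ ?_ ?_ ?_
  · intro L hL
    simp only [mem_filter, mem_univ, true_and] at hL ⊢
    rw [seat_equiv c e hee, hL]; simp [he]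
  · intro L hL
    simp only [mem_filter, mem_univ, true_and] at hL ⊢
    rw [seat_equiv c e hee, hL]; simp [he]
  · intro L _; ext k; simp [he]
  · intro L _; ext k; simp [he]

lemma cnt_none (c : Fin n → ℕ) : cnt d c none = (Fu c).descFactorial d := by
  unfold cnt
  have h1 : (univ.filter fun L : Fin d ↪ Fin n => seat 2 c L = none)
      = (univ.filter fun L : Fin d ↪ Fin n => ∀ k, ¬ c (L k) < 2) := by
    ext L
    simp only [mem_filter, mem_univ, true_and, seat, List.find?_eq_none, List.mem_ofFn]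
    constructor
    · intro h k
      have := h (L k) ⟨k, rfl⟩
      simpa using this
    · rintro h x ⟨k, rfl⟩
      simpa using h k
  rw [h1, ← Fintype.card_subtype]
  have h2 : Fintype.card {L : Fin d ↪ Fin n // ∀ k, ¬ c (L k) < 2}
      = Fintype.card (Fin d ↪ {v : Fin n // ¬ c v < 2}) := by
    refine Fintype.card_congr
      { toFun := fun L => ⟨fun k => ⟨L.1 k, L.2 k⟩, fun a b hab => L.1.injective (by simpa using hab)⟩
        invFun := fun L => ⟨L.trans (Function.Embedding.subtype _), fun k => (L k).2⟩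
        left_inv := fun L => by ext; rfl
        right_inv := fun L => by ext; rfl }
  rw [h2, Fintype.card_embedding_eq, Fintype.card_fin, Fintype.card_subtype]
  rfl

lemma cnt_total (c : Fin n → ℕ) : cnt d c none + ∑ v, cnt d c (some v) = n.descFactorial d := by
  have h := card_eq_sum_card_fiberwise (s := (univ : Finset (Fin d ↪ Fin n)))
    (t := (univ : Finset (Option (Fin n)))) (f := fun L => seat 2 c L) (by intro x _; simp)
  rw [Fintype.sum_option] at h
  have h2 : (univ : Finset (Fin d ↪ Fin n)).card = n.descFactorial d := by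
    rw [card_univ, Fintype.card_embedding_eq]; simp
  rw [h2] at h
  exact h.symm

/-- the one-step kernel on statistics of the two counts -/
theorem kernel (c : Fin n → ℕ) : ∃ m : ℕ,
    (Fu c).descFactorial d + m * (Z0 c + Z1 c) = n.descFactorial d ∧
    ∀ Φ : ℕ → ℕ → ℝ,
      ∑ L : Fin d ↪ Fin n, Φ (Z0 (nxt c (seat 2 c L))) (Z1 (nxt c (seat 2 c L))) =
        ((Fu c).descFactorial d : ℝ) * Φ (Z0 c) (Z1 c) +
        (m : ℝ) * ((Z0 c : ℝ) * Φ (Z0 c - 1) (Z1 c + 1) + (Z1 c : ℝ) * Φ (Z0 c) (Z1 c - 1)) := by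
  obtain ⟨m, hm⟩ : ∃ m : ℕ, ∀ v, c v < 2 → cnt d c (some v) = m := by
    by_cases h : ∃ v, c v < 2
    · obtain ⟨v, hv⟩ := h
      exact ⟨_, fun w hw => cnt_eq c w v hw hv⟩
    · exact ⟨0, fun v hv => absurd ⟨v, hv⟩ h⟩
  refine ⟨m, ?_, ?_⟩
  · have h := cnt_total (d := d) c
    rw [cnt_none] at h
    rw [← h]
    congr 1
    have : ∀ v, cnt d c (some v) = if c v < 2 then m else 0 := by
      intro v
      split_ifs with hv
      · exact hm v hv
      · exact cnt_full c v hv
    rw [Finset.sum_congr rfl (fun v _ => this v), ← Finset.sum_filter, Finset.sum_const, smul_eq_mul,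
      mul_comm]
    congr 1
    have hs : (univ.filter fun v => c v < 2) = (univ.filter fun v => c v = 0) ∪ (univ.filter fun v => c v = 1) := by
      ext v; simp; omega
    rw [hs, card_union_of_disjoint]
    · rfl
    · rw [Finset.disjoint_left]; intro v; simp; omega
  · intro Φ
    have h := Finset.sum_fiberwise (s := (univ : Finset (Fin d ↪ Fin n))) (g := fun L => seat 2 c L)
      (f := fun L => Φ (Z0 (nxt c (seat 2 c L))) (Z1 (nxt c (seat 2 c L))))
    rw [← h, Fintype.sum_option]
    have hin : ∀ o : Option (Fin n), ∑ L ∈ (univ : Finset (Fin d ↪ Fin n)) with seat 2 c L = o,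
        Φ (Z0 (nxt c (seat 2 c L))) (Z1 (nxt c (seat 2 c L)))
        = (cnt d c o : ℝ) * Φ (Z0 (nxt c o)) (Z1 (nxt c o)) := by
      intro o
      rw [Finset.sum_congr rfl (g := fun _ => Φ (Z0 (nxt c o)) (Z1 (nxt c o)))]
      · rw [Finset.sum_const, nsmul_eq_mul]; rfl
      · intro L hL
        rw [(mem_filter.mp hL).2]
    rw [hin none, cnt_none, nxt_none]
    congr 1
    rw [Finset.sum_congr rfl (fun v _ => hin (some v))]
    have hv : ∀ v, (cnt d c (some v) : ℝ) * Φ (Z0 (nxt c (some v))) (Z1 (nxt c (some v)))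
        = (if c v = 0 then (m : ℝ) * Φ (Z0 c - 1) (Z1 c + 1) else 0)
          + (if c v = 1 then (m : ℝ) * Φ (Z0 c) (Z1 c - 1) else 0) := by
      intro v
      by_cases h0 : c v = 0
      · rw [hm v (by omega), Z0_nxt0 c v h0, Z1_nxt0 c v h0]; simp [h0]
      · by_cases h1 : c v = 1
        · rw [hm v (by omega), Z0_nxt1 c v h1, Z1_nxt1 c v h1]; simp [h1]
        · rw [cnt_full c v (by omega)]; simp [h0, h1]
    rw [Finset.sum_congr rfl (fun v _ => hv v), Finset.sum_add_distrib, ← Finset.sum_filter,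
      ← Finset.sum_filter, Finset.sum_const, Finset.sum_const, nsmul_eq_mul, nsmul_eq_mul]
    unfold Z0 Z1
    ring

/-- sum over all profiles of a statistic of the two counts -/
noncomputable def Es (n d i : ℕ) (Φ : ℕ → ℕ → ℝ) : ℝ :=
  ∑ L : Fin i → (Fin d ↪ Fin n), Φ (Z0 (load 2 i L)) (Z1 (load 2 i L))

lemma load_succ (i : ℕ) (L : Fin i → (Fin d ↪ Fin n)) (l : Fin d ↪ Fin n) :
    load 2 (i + 1) (Fin.snoc (α := fun _ => Fin d ↪ Fin n) L l) = nxt (load 2 i L) (seat 2 (load 2 i L) l) := by
  funext v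
  simp [load, nxt]

lemma sum_succ {β : Type} [AddCommMonoid β] (i : ℕ) (F : (Fin (i + 1) → (Fin d ↪ Fin n)) → β) :
    ∑ L, F L = ∑ L : Fin i → (Fin d ↪ Fin n), ∑ l : Fin d ↪ Fin n,
      F (Fin.snoc (α := fun _ => Fin d ↪ Fin n) L l) := by
  rw [← Equiv.sum_comp (Fin.snocEquiv (fun _ => Fin d ↪ Fin n)) F, Fintype.sum_prod_type_right]
  rfl

lemma Es_succ (i : ℕ) (Φ : ℕ → ℕ → ℝ) :
    Es n d (i + 1) Φ = ∑ L : Fin i → (Fin d ↪ Fin n), ∑ l : Fin d ↪ Fin n,
      Φ (Z0 (nxt (load 2 i L) (seat 2 (load 2 i L) l))) (Z1 (nxt (load 2 i L) (seat 2 (load 2 i L) l))) := by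
  unfold Es
  rw [sum_succ]
  refine Finset.sum_congr rfl fun L _ => Finset.sum_congr rfl fun l _ => ?_
  rw [load_succ]

lemma probMatched_eq (i : ℕ) (hd : d ≤ n) : probMatched n d 2 i =
    1 - (Es n d i fun a b => ((n - a - b).descFactorial d : ℝ) / (n.descFactorial d : ℝ))
      / ((n.descFactorial d : ℝ)) ^ i := by
  have hpos : (0 : ℝ) < (n.descFactorial d : ℝ) := by
    exact_mod_cast Nat.descFactorial_pos.mpr hd
  unfold probMatched
  have hcard : (Fintype.card (Fin (i + 1) → (Fin d ↪ Fin n)) : ℝ) = (n.descFactorial d : ℝ) ^ (i + 1) := by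
    rw [Fintype.card_fun, Fintype.card_embedding_eq]; simp
  rw [hcard]
  have h1 : ((Finset.univ.filter fun L : Fin (i + 1) → (Fin d ↪ Fin n) =>
      (seat 2 (load 2 i (fun j => L j.castSucc)) (L (Fin.last i))).isSome = true).card : ℝ)
      = ∑ L : Fin i → (Fin d ↪ Fin n), ((n.descFactorial d : ℝ) - ((Fu (load 2 i L)).descFactorial d : ℝ)) := by
    rw [Finset.card_filter, Nat.cast_sum, sum_succ]
    refine Finset.sum_congr rfl fun L _ => ?_
    have h2 : ∀ l : Fin d ↪ Fin n, ((if (seat 2 (load 2 i (fun j : Fin i => (Fin.snoc (α := fun _ => Fin d ↪ Fin n) L l : Fin (i+1) → (Fin d ↪ Fin n)) j.castSucc))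
        ((Fin.snoc (α := fun _ => Fin d ↪ Fin n) L l : Fin (i+1) → (Fin d ↪ Fin n)) (Fin.last i))).isSome = true then 1 else 0 : ℕ) : ℝ)
        = 1 - (if seat 2 (load 2 i L) l = none then 1 else 0) := by
      intro l
      simp only [Fin.snoc_castSucc, Fin.snoc_last]
      cases hs : seat 2 (load 2 i L) l <;> simp
    rw [Finset.sum_congr rfl (fun l _ => h2 l), Finset.sum_sub_distrib]
    congr 1
    · rw [Finset.sum_const, card_univ, Fintype.card_embedding_eq]; simp
    · rw [← cnt_none, cnt, Finset.card_filter]; push_cast; rfl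
  rw [h1, Finset.sum_sub_distrib, Finset.sum_const, card_univ, Fintype.card_fun,
    Fintype.card_embedding_eq, nsmul_eq_mul]
  unfold Es
  have h3 : ∀ L : Fin i → (Fin d ↪ Fin n), (n - Z0 (load 2 i L) - Z1 (load 2 i L)) = Fu (load 2 i L) := by
    intro L
    have := Z_sum (load 2 i L)
    omega
  simp only [h3]
  rw [← Finset.sum_div]
  simp only [Fintype.card_fin]
  push_cast
  rw [pow_succ]
  field_simp

end Pool.Agent.V113.Ser
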