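import Pool.Agent.V113.Ser.Kern

set_option autoImplicit false
open Finset

namespace Pool.Agent.V113.Ser

/-- `1 + f + ... + f^(d-1)` -/
noncomputable def S (d : ℕ) (f : ℝ) : ℝ := ∑ k ∈ range d, f ^ k

lemma S_nonneg (d : ℕ) {f : ℝ} (h0 : 0 ≤ f) : 0 ≤ S d f :=
  Finset.sum_nonneg fun _ _ => pow_nonneg h0 _

lemma S_le (d : ℕ) {f : ℝ} (h0 : 0 ≤ f) (h1 : f ≤ 1) : S d f ≤ d := by
  unfold S
  calc ∑ k ∈ range d, f ^ k ≤ ∑ k ∈ range d, (1 : ℝ) := Finset.sum_le_sum fun _ _ => pow_le_one₀ h0 h1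
    _ = d := by simp

lemma pow_lip (k : ℕ) {x y : ℝ} (hx0 : 0 ≤ x) (hx1 : x ≤ 1) (hy0 : 0 ≤ y) (hy1 : y ≤ 1) :
    |x ^ k - y ^ k| ≤ k * |x - y| := by
  induction k with
  | zero => simp
  | succ k ih =>
    have : x ^ (k + 1) - y ^ (k + 1) = x * (x ^ k - y ^ k) + (x - y) * y ^ k := by ring
    rw [this]
    calc |x * (x ^ k - y ^ k) + (x - y) * y ^ k|
        ≤ |x * (x ^ k - y ^ k)| + |(x - y) * y ^ k| := abs_add_le _ _
      _ = x * |x ^ k - y ^ k| + |x - y| * y ^ k := by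
          rw [abs_mul, abs_mul, abs_of_nonneg hx0, abs_of_nonneg (pow_nonneg hy0 k)]
      _ ≤ 1 * (k * |x - y|) + |x - y| * 1 := by
          have h1 := abs_nonneg (x ^ k - y ^ k)
          have h2 := pow_le_one₀ (n := k) hy0 hy1
          have h3 := abs_nonneg (x - y)
          gcongr
      _ = ((k + 1 : ℕ) : ℝ) * |x - y| := by push_cast; ring

lemma S_lip (d : ℕ) {x y : ℝ} (hx0 : 0 ≤ x) (hx1 : x ≤ 1) (hy0 : 0 ≤ y) (hy1 : y ≤ 1) :
    |S d x - S d y| ≤ (d : ℝ) ^ 2 * |x - y| := by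
  unfold S
  rw [← Finset.sum_sub_distrib]
  calc |∑ k ∈ range d, (x ^ k - y ^ k)| ≤ ∑ k ∈ range d, |x ^ k - y ^ k| := abs_sum_le_sum_abs _ _
    _ ≤ ∑ k ∈ range d, (d : ℝ) * |x - y| := by
        refine Finset.sum_le_sum fun k hk => (pow_lip k hx0 hx1 hy0 hy1).trans ?_
        have : (k : ℝ) ≤ d := by exact_mod_cast (mem_range.mp hk).le
        have h3 := abs_nonneg (x - y)
        gcongr
    _ = (d : ℝ) ^ 2 * |x - y| := by simp; ring

/-- probability that the first k listed schools are full -/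
noncomputable def tk (n F k : ℕ) : ℝ := (F.descFactorial k : ℝ) / (n.descFactorial k : ℝ)

lemma tk_nonneg (n F k : ℕ) : 0 ≤ tk n F k := by unfold tk; positivity

lemma tk_le (n F k : ℕ) (hF : F ≤ n) : tk n F k ≤ 1 := by
  unfold tk
  apply div_le_one_of_le₀ _ (by positivity)
  exact_mod_cast Nat.descFactorial_le k hF

lemma tk_succ (n F k : ℕ) (hk : k < n) :
    tk n F (k + 1) = tk n F k * (((F : ℝ) - k) / ((n : ℝ) - k)) := by
  unfold tk
  rw [Nat.descFactorial_succ, Nat.descFactorial_succ]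
  push_cast [Nat.cast_sub hk.le]
  rcases le_or_gt k F with h | h
  · rw [Nat.cast_sub h, mul_div_mul_comm, mul_comm]
  · have : F.descFactorial k = 0 := Nat.descFactorial_eq_zero_iff_lt.mpr h
    rw [this]; simp

lemma tk_zero (n F : ℕ) : tk n F 0 = 1 := by simp [tk]

lemma tk_zero_of_lt (n F k : ℕ) (h : F < k) : tk n F k = 0 := by
  unfold tk
  rw [Nat.descFactorial_eq_zero_iff_lt.mpr h]; simp

lemma tk_close (n F d : ℕ) (hF : F ≤ n) (hn : 2 * d ≤ n) (hn0 : 0 < n) :
    ∀ k ≤ d, |tk n F k - ((F : ℝ) / n) ^ k| ≤ k * (2 * d / n) := by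
  have hnr : (0 : ℝ) < n := by exact_mod_cast hn0
  have hf0 : (0 : ℝ) ≤ (F : ℝ) / n := by positivity
  have hf1 : (F : ℝ) / n ≤ 1 := by rw [div_le_one hnr]; exact_mod_cast hF
  intro k
  induction k with
  | zero => intro _; simp [tk_zero]
  | succ k ih =>
    intro hk
    have ihk := ih (by omega)
    have hnr2 : (2 : ℝ) * d ≤ n := by exact_mod_cast hn
    have hkd : (k : ℝ) + 1 ≤ d := by exact_mod_cast hk
    rcases le_or_gt k F with h | h
    · rw [tk_succ n F k (by omega), pow_succ]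
      set a : ℝ := ((F : ℝ) - k) / ((n : ℝ) - k) with ha
      set f : ℝ := (F : ℝ) / n with hfdef
      have hkF : (k : ℝ) ≤ F := by exact_mod_cast h
      have hFn : (F : ℝ) ≤ n := by exact_mod_cast hF
      have hk0 : (0 : ℝ) ≤ k := by positivity
      have hnk : (0 : ℝ) < (n : ℝ) - k := by linarith
      have haf : |a - f| ≤ 2 * d / n := by
        have : a - f = - (k * ((n : ℝ) - F) / (((n : ℝ) - k) * n)) := by
          rw [ha, hfdef]; field_simp; ring
        rw [this, abs_neg, abs_of_nonneg (by apply div_nonneg <;> [exact mul_nonneg hk0 (by linarith); positivity])]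
        rw [div_le_div_iff₀ (by positivity) hnr]
        have h1 : (k : ℝ) * ((n : ℝ) - F) ≤ d * n := by
          apply mul_le_mul <;> linarith
        have h2 : (n : ℝ) ≤ 2 * (n - k) := by linarith
        calc (k : ℝ) * ((n : ℝ) - F) * n ≤ d * n * n := by gcongr
          _ ≤ d * n * (2 * (n - k)) := by gcongr
          _ = 2 * d * ((n - k) * n) := by ring
      have : tk n F k * a - f ^ k * f = tk n F k * (a - f) + f * (tk n F k - f ^ k) := by ring
      rw [this]
      calc |tk n F k * (a - f) + f * (tk n F k - f ^ k)|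
          ≤ |tk n F k * (a - f)| + |f * (tk n F k - f ^ k)| := abs_add_le _ _
        _ = tk n F k * |a - f| + f * |tk n F k - f ^ k| := by
            rw [abs_mul, abs_mul, abs_of_nonneg (tk_nonneg _ _ _), abs_of_nonneg hf0]
        _ ≤ 1 * (2 * d / n) + 1 * (k * (2 * d / n)) := by
            have h1 := tk_le n F k hF
            have h2 := abs_nonneg (a - f)
            have h3 := abs_nonneg (tk n F k - f ^ k)
            gcongr
        _ = ((k + 1 : ℕ) : ℝ) * (2 * d / n) := by push_cast; ring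
    · rw [tk_zero_of_lt n F (k + 1) (by omega)]
      rw [tk_zero_of_lt n F k h] at ihk
      simp only [zero_sub, abs_neg] at ihk ⊢
      rw [abs_of_nonneg (by positivity)] at ihk ⊢
      calc ((F : ℝ) / n) ^ (k + 1) = ((F : ℝ) / n) ^ k * ((F : ℝ) / n) := pow_succ _ _
        _ ≤ (k * (2 * d / n)) * 1 := by gcongr
        _ ≤ ((k + 1 : ℕ) : ℝ) * (2 * d / n) := by
            push_cast
            have : (0 : ℝ) ≤ 2 * d / n := by positivity
            nlinarith

/-- closeness of the rescaled matching rate -/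
lemma s_close (n F d : ℕ) (hF : F < n) (hn : 2 * d ≤ n) (r : ℝ)
    (hr : tk n F d + r * ((n : ℝ) - F) = 1) :
    |n * r - S d ((F : ℝ) / n)| ≤ 4 * (d : ℝ) ^ 3 / n := by
  have hn0 : 0 < n := by omega
  have hnr : (0 : ℝ) < n := by exact_mod_cast hn0
  have hFn : (0 : ℝ) < (n : ℝ) - F := by
    have : (F : ℝ) < n := by exact_mod_cast hF
    linarith
  have hnr2 : (2 : ℝ) * d ≤ n := by exact_mod_cast hn
  have htel : ∑ k ∈ range d, (tk n F k - tk n F (k + 1)) = tk n F 0 - tk n F d := by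
    have := Finset.sum_range_sub' (fun k => tk n F k) d
    simpa using this
  have hterm : ∀ k ∈ range d, tk n F k - tk n F (k + 1) = (tk n F k / ((n : ℝ) - k)) * ((n : ℝ) - F) := by
    intro k hk
    have hkd := mem_range.mp hk
    have hkr : (k : ℝ) < d := by exact_mod_cast hkd
    have hnk : ((n : ℝ) - k) ≠ 0 := by
      have : (0 : ℝ) ≤ d := by positivity
      have : (0 : ℝ) < (n : ℝ) - k := by linarith
      exact this.ne'
    rw [tk_succ n F k (by omega)]
    field_simp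
    ring
  rw [Finset.sum_congr rfl hterm, ← Finset.sum_mul, tk_zero] at htel
  have hrr : r = ∑ k ∈ range d, tk n F k / ((n : ℝ) - k) := by
    have : r * ((n : ℝ) - F) = (∑ k ∈ range d, tk n F k / ((n : ℝ) - k)) * ((n : ℝ) - F) := by
      rw [htel]; linarith
    exact mul_right_cancel₀ hFn.ne' this
  rw [hrr, Finset.mul_sum, S, ← Finset.sum_sub_distrib]
  calc |∑ k ∈ range d, (n * (tk n F k / ((n : ℝ) - k)) - ((F : ℝ) / n) ^ k)|
      ≤ ∑ k ∈ range d, |n * (tk n F k / ((n : ℝ) - k)) - ((F : ℝ) / n) ^ k| := abs_sum_le_sum_abs _ _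
    _ ≤ ∑ k ∈ range d, (4 * (d : ℝ) ^ 2 / n) := by
        refine Finset.sum_le_sum fun k hk => ?_
        have hkd := mem_range.mp hk
        have hkr : (k : ℝ) + 1 ≤ d := by exact_mod_cast hkd
        have hk0 : (0 : ℝ) ≤ k := by positivity
        have hnk : (0 : ℝ) < (n : ℝ) - k := by linarith
        have e1 : n * (tk n F k / ((n : ℝ) - k)) - ((F : ℝ) / n) ^ k
            = tk n F k * (k / ((n : ℝ) - k)) + (tk n F k - ((F : ℝ) / n) ^ k) := by
          field_simp; ring
        rw [e1]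
        have h2 := tk_close n F d hF.le hn hn0 k hkd.le
        have h3 : (k : ℝ) / ((n : ℝ) - k) ≤ 2 * d / n := by
          rw [div_le_div_iff₀ hnk hnr]
          nlinarith
        calc |tk n F k * (k / ((n : ℝ) - k)) + (tk n F k - ((F : ℝ) / n) ^ k)|
            ≤ |tk n F k * (k / ((n : ℝ) - k))| + |tk n F k - ((F : ℝ) / n) ^ k| := abs_add_le _ _
          _ ≤ 1 * (2 * d / n) + k * (2 * d / n) := by
              rw [abs_mul, abs_of_nonneg (tk_nonneg _ _ _), abs_of_nonneg (by positivity : (0:ℝ) ≤ k / ((n : ℝ) - k))]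
              have := tk_le n F k hF.le
              gcongr
          _ = ((k : ℝ) + 1) * (2 * d / n) := by ring
          _ ≤ (d : ℝ) * (2 * d / n) := by gcongr
          _ = 2 * (d : ℝ) ^ 2 / n := by ring
          _ ≤ 4 * (d : ℝ) ^ 2 / n := by gcongr; norm_num
    _ = 4 * (d : ℝ) ^ 3 / n := by simp; ring

/-- one step inequality -/
lemma step_ineq (D K L h u v α β da db P R sg ta : ℝ) (hD : 1 ≤ D) (hK : 0 ≤ K) (hL : 0 ≤ L)
    (h0 : 0 < h) (h1 : h ≤ 1) (hu : 0 ≤ u) (hv : 0 ≤ v) (huv : u + v ≤ 1) (hα : 0 ≤ α) (hβ : 0 ≤ β)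
    (hαβ : α + β ≤ 1) (hP : 0 ≤ P) (hR : 0 ≤ R) (hPR : P + R ≤ 1) (hsg0 : 0 ≤ sg) (hsg : sg ≤ D)
    (hta0 : 0 ≤ ta) (hta : ta ≤ D)
    (hst : |sg - ta| ≤ D ^ 2 * (|u - α| + |v - β|))
    (hPs : |P - sg * u| ≤ K * h) (hQs : |(P - R) - sg * (u - v)| ≤ K * h)
    (hda : |da + h * (ta * α)| ≤ L * h ^ 2) (hdb : |db - h * (ta * (α - β))| ≤ L * h ^ 2) :
    (u - (α + da)) ^ 2 + (v - (β + db)) ^ 2
      + P * (-2 * h * (u - (α + da)) + 2 * h * (v - (β + db)) + 2 * h ^ 2)
      + R * (-2 * h * (v - (β + db)) + h ^ 2)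
    ≤ (1 + 8 * D ^ 2 * h) * ((u - α) ^ 2 + (v - β) ^ 2)
      + (4 * (K + L) + 2 * (D + L) ^ 2 + 4 * (D + L) + 2) * h ^ 2 := by
  set A := u - α with hA
  set B := v - β with hB
  set M := |A| + |B| with hM
  have hA1 : |A| ≤ 1 := by rw [abs_le]; constructor <;> linarith
  have hB1 : |B| ≤ 1 := by rw [abs_le]; constructor <;> linarith
  have hM0 : 0 ≤ M := by positivity
  have hM2 : M ≤ 2 := by linarith
  have hDD : D ≤ D ^ 2 := by nlinarith
  have hu1 : |u| ≤ 1 := by rw [abs_le]; constructor <;> linarith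
  have huv1 : |u - v| ≤ 1 := by rw [abs_le]; constructor <;> linarith
  have hαβ1 : |α - β| ≤ 1 := by rw [abs_le]; constructor <;> linarith
  have hABM : |A - B| ≤ M := by
    calc |A - B| ≤ |A| + |B| := abs_sub _ _
      _ = M := rfl
  have hAM : |A| ≤ M := by linarith [abs_nonneg B]
  have hta_abs : |ta| ≤ D := by rw [abs_of_nonneg hta0]; exact hta
  -- first error
  have e1 : |da + h * P| ≤ (K + L) * h ^ 2 + 2 * D ^ 2 * h * M := by
    have : da + h * P = (da + h * (ta * α)) + h * ((P - sg * u) + (sg - ta) * u + ta * A) := by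
      rw [hA]; ring
    rw [this]
    calc |(da + h * (ta * α)) + h * ((P - sg * u) + (sg - ta) * u + ta * A)|
        ≤ |da + h * (ta * α)| + |h * ((P - sg * u) + (sg - ta) * u + ta * A)| := abs_add_le _ _
      _ ≤ L * h ^ 2 + h * (K * h + D ^ 2 * M * 1 + D * M) := by
          rw [abs_mul, abs_of_pos h0]
          have h3 : |(P - sg * u) + (sg - ta) * u + ta * A| ≤ K * h + D ^ 2 * M * 1 + D * M := by
            calc |(P - sg * u) + (sg - ta) * u + ta * A|
                ≤ |P - sg * u| + |(sg - ta) * u| + |ta * A| := abs_add_three _ _ _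
              _ ≤ K * h + D ^ 2 * M * 1 + D * M := by
                  rw [abs_mul, abs_mul]
                  gcongr
          gcongr
      _ ≤ (K + L) * h ^ 2 + 2 * D ^ 2 * h * M := by linarith [mul_nonneg (sub_nonneg.mpr hDD) (mul_nonneg h0.le hM0)]
  have e2 : |h * (P - R) - db| ≤ (K + L) * h ^ 2 + 2 * D ^ 2 * h * M := by
    have : h * (P - R) - db = -(db - h * (ta * (α - β)))
        + h * (((P - R) - sg * (u - v)) + (sg - ta) * (u - v) + ta * (A - B)) := by
      rw [hA, hB]; ring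
    rw [this]
    calc |-(db - h * (ta * (α - β))) + h * (((P - R) - sg * (u - v)) + (sg - ta) * (u - v) + ta * (A - B))|
        ≤ |-(db - h * (ta * (α - β)))| + |h * (((P - R) - sg * (u - v)) + (sg - ta) * (u - v) + ta * (A - B))| := abs_add_le _ _
      _ ≤ L * h ^ 2 + h * (K * h + D ^ 2 * M * 1 + D * M) := by
          rw [abs_mul, abs_of_pos h0, abs_neg]
          have h3 : |((P - R) - sg * (u - v)) + (sg - ta) * (u - v) + ta * (A - B)| ≤ K * h + D ^ 2 * M * 1 + D * M := by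
            calc |((P - R) - sg * (u - v)) + (sg - ta) * (u - v) + ta * (A - B)|
                ≤ |(P - R) - sg * (u - v)| + |(sg - ta) * (u - v)| + |ta * (A - B)| := abs_add_three _ _ _
              _ ≤ K * h + D ^ 2 * M * 1 + D * M := by
                  rw [abs_mul, abs_mul]
                  gcongr
          gcongr
      _ ≤ (K + L) * h ^ 2 + 2 * D ^ 2 * h * M := by linarith [mul_nonneg (sub_nonneg.mpr hDD) (mul_nonneg h0.le hM0)]
  have hh2 : L * h ^ 2 ≤ L * h := mul_le_mul_of_nonneg_left (by nlinarith) hL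
  have ea : |da| ≤ (D + L) * h := by
    have : da = (da + h * (ta * α)) - h * (ta * α) := by ring
    rw [this]
    calc |(da + h * (ta * α)) - h * (ta * α)| ≤ |da + h * (ta * α)| + |h * (ta * α)| := abs_sub _ _
      _ ≤ L * h ^ 2 + h * (D * 1) := by
          rw [abs_mul, abs_of_pos h0, abs_mul]
          have : |α| ≤ 1 := by rw [abs_le]; constructor <;> linarith
          gcongr
      _ ≤ (D + L) * h := by linarith
  have eb : |db| ≤ (D + L) * h := by
    have : db = (db - h * (ta * (α - β))) + h * (ta * (α - β)) := by ring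
    rw [this]
    calc |(db - h * (ta * (α - β))) + h * (ta * (α - β))| ≤ |db - h * (ta * (α - β))| + |h * (ta * (α - β))| := abs_add_le _ _
      _ ≤ L * h ^ 2 + h * (D * 1) := by
          rw [abs_mul h, abs_of_pos h0, abs_mul ta]
          gcongr
      _ ≤ (D + L) * h := by linarith
  have key : (u - (α + da)) ^ 2 + (v - (β + db)) ^ 2
      + P * (-2 * h * (u - (α + da)) + 2 * h * (v - (β + db)) + 2 * h ^ 2)
      + R * (-2 * h * (v - (β + db)) + h ^ 2)
      = A ^ 2 + B ^ 2 + (-2 * A * (da + h * P)) + (2 * B * (h * (P - R) - db))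
        + (da ^ 2 + db ^ 2 + 2 * h * P * da + (-2 * h * (P - R) * db) + (2 * P + R) * h ^ 2) := by
    rw [hA, hB]; ring
  rw [key]
  set X := (K + L) * h ^ 2 + 2 * D ^ 2 * h * M with hX
  have k1 : -2 * A * (da + h * P) ≤ 2 * |A| * X := by
    calc -2 * A * (da + h * P) ≤ |-2 * A * (da + h * P)| := le_abs_self _
      _ = 2 * |A| * |da + h * P| := by rw [abs_mul, abs_mul]; norm_num
      _ ≤ 2 * |A| * X := by gcongr
  have k2 : 2 * B * (h * (P - R) - db) ≤ 2 * |B| * X := by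
    calc 2 * B * (h * (P - R) - db) ≤ |2 * B * (h * (P - R) - db)| := le_abs_self _
      _ = 2 * |B| * |h * (P - R) - db| := by rw [abs_mul, abs_mul]; norm_num
      _ ≤ 2 * |B| * X := by gcongr
  have k3 : da ^ 2 ≤ ((D + L) * h) ^ 2 := sq_le_sq' (by linarith [(abs_le.mp ea).1]) (abs_le.mp ea).2
  have k4 : db ^ 2 ≤ ((D + L) * h) ^ 2 := sq_le_sq' (by linarith [(abs_le.mp eb).1]) (abs_le.mp eb).2
  have k5 : 2 * h * P * da ≤ 2 * h * 1 * ((D + L) * h) := by
    have hP1 : |P| ≤ 1 := by rw [abs_le]; constructor <;> linarith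
    calc 2 * h * P * da ≤ |2 * h * P * da| := le_abs_self _
      _ = 2 * h * |P| * |da| := by rw [abs_mul, abs_mul, abs_mul, abs_of_pos h0]; norm_num
      _ ≤ 2 * h * 1 * ((D + L) * h) := by gcongr
  have k6 : -2 * h * (P - R) * db ≤ 2 * h * 1 * ((D + L) * h) := by
    have hP1 : |P - R| ≤ 1 := by rw [abs_le]; constructor <;> linarith
    calc -2 * h * (P - R) * db ≤ |-2 * h * (P - R) * db| := le_abs_self _
      _ = 2 * h * |P - R| * |db| := by rw [abs_mul, abs_mul, abs_mul, abs_of_pos h0]; norm_num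
      _ ≤ 2 * h * 1 * ((D + L) * h) := by gcongr
  have k7 : (2 * P + R) * h ^ 2 ≤ 2 * h ^ 2 := by
    have : 2 * P + R ≤ 2 := by linarith
    gcongr
  have k8 : M ^ 2 ≤ 2 * (A ^ 2 + B ^ 2) := by
    rw [hM, ← sq_abs A, ← sq_abs B]
    nlinarith [sq_nonneg (|A| - |B|)]
  have k9 : 2 * |A| * X + 2 * |B| * X = 2 * M * X := by rw [hM]; ring
  have k10 : 2 * M * X = 2 * M * ((K + L) * h ^ 2) + 4 * D ^ 2 * h * M ^ 2 := by rw [hX]; ring
  have k11 : 2 * M * ((K + L) * h ^ 2) ≤ 4 * ((K + L) * h ^ 2) := by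
    have : 0 ≤ (K + L) * h ^ 2 := by positivity
    nlinarith
  have k12 : 4 * D ^ 2 * h * M ^ 2 ≤ 4 * D ^ 2 * h * (2 * (A ^ 2 + B ^ 2)) := by gcongr
  linarith [k1, k2, k3, k4, k5, k6, k7, k9, k10, k11, k12]

end Pool.Agent.V113.Ser
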