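import Pool.Agent.V113.Ser.AB

set_option autoImplicit false
open Finset Filter Topology

namespace Pool.Agent.V113.Ser

lemma exp10 : Real.exp 10 = Real.exp 1 ^ 10 := by
  rw [← Real.exp_nat_mul]; norm_num

lemma e10_lo : (4.53999 / 100000 : ℝ) ≤ Real.exp (-10) := by
  rw [Real.exp_neg, exp10, le_inv_comm₀ (by norm_num) (by positivity)]
  calc Real.exp 1 ^ 10 ≤ 2.7182818286 ^ 10 := by
        have := Real.exp_one_lt_d9
        gcongr
    _ ≤ _ := by norm_num

lemma e10_hi : Real.exp (-10) ≤ (4.54 / 100000 : ℝ) := by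
  rw [Real.exp_neg, exp10, inv_le_comm₀ (by positivity) (by norm_num)]
  calc _ ≤ (2.7182818283 : ℝ) ^ 10 := by norm_num
    _ ≤ Real.exp 1 ^ 10 := by
        have := Real.exp_one_gt_d9
        gcongr

/-- lower bound of `exp (-x)` near `log 2` -/
lemma exp_lo (x : ℝ) : (1 / 2) * (1 + Real.log 2 - x) ≤ Real.exp (-x) := by
  have h := Real.add_one_le_exp (Real.log 2 - x)
  rw [sub_eq_add_neg, Real.exp_add, Real.exp_log (by norm_num)] at h
  linarith

/-- upper bound of `exp (-x)` near `log 2` -/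
lemma exp_hi {x : ℝ} (hx : 0 < 1 - Real.log 2 + x) : Real.exp (-x) ≤ 1 / (2 * (1 - Real.log 2 + x)) := by
  have h := Real.add_one_le_exp (x - Real.log 2)
  rw [Real.exp_sub, Real.exp_log (by norm_num)] at h
  rw [Real.exp_neg, ← one_div]
  apply one_div_le_one_div_of_le (by positivity)
  linarith

lemma pow_hi {δ : ℝ} (h1 : δ ≤ 1) (n : ℕ) : (1 - δ) ^ n ≤ Real.exp (-(n * δ)) := by
  calc (1 - δ) ^ n ≤ Real.exp (-δ) ^ n := by
        have := Real.one_sub_le_exp_neg δ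
        have h0 : 0 ≤ 1 - δ := by linarith
        gcongr
    _ = _ := by rw [← Real.exp_nat_mul]; ring_nf

lemma pow_lo {δ : ℝ} (h1 : δ < 1) (n : ℕ) : Real.exp (-(n * δ / (1 - δ))) ≤ (1 - δ) ^ n := by
  have h0 : 0 < 1 - δ := by linarith
  have h2 := Real.one_sub_inv_le_log_of_pos h0
  have h3 : 1 - (1 - δ)⁻¹ = -(δ / (1 - δ)) := by field_simp; ring
  rw [h3] at h2
  have h4 : Real.exp (-(δ / (1 - δ))) ≤ 1 - δ := by
    rw [← Real.le_log_iff_exp_le h0]; exact h2
  calc Real.exp (-(n * δ / (1 - δ))) = Real.exp (-(δ / (1 - δ))) ^ n := by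
        rw [← Real.exp_nat_mul]; ring_nf
    _ ≤ _ := by
        have := Real.exp_pos (-(δ / (1 - δ)))
        gcongr

lemma G10 : G 10 = 1 - 11 * Real.exp (-10) := by unfold G; ring

lemma partB_T : 2 ≤ Tf 1390 10 := by
  refine le_trans ?_ (lowerT 1390 (by norm_num) 10 (y := 10) (by norm_num))
  have hlo := e10_lo
  have hhi := e10_hi
  set E := Real.exp (-10) with hE
  have hG : G 10 = 1 - 11 * E := G10
  have hl2 := Real.log_two_gt_d9
  have hw : (0.4993 : ℝ) ≤ G 10 ^ 1390 := by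
    rw [hG]
    refine le_trans ?_ (pow_lo (by linarith) 1390)
    refine le_trans ?_ (exp_lo _)
    have hd : ((1390 : ℕ) : ℝ) * (11 * E) / (1 - 11 * E) ≤ 0.69452 := by
      rw [div_le_iff₀ (by linarith)]
      push_cast
      linarith
    linarith
  have hG9 : (0.9995 : ℝ) ≤ G 10 := by rw [hG]; linarith
  have hterm : ∀ k ∈ range 10, (0.9995 : ℝ) * 0.4993 ^ (k + 1) / (1390 * (k + 1) + 1)
      ≤ G 10 ^ ((k + 1) * 1390 + 1) / ((((k + 1) * 1390 : ℕ) : ℝ) + 1) := by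
    intro k _
    have e1 : G 10 ^ ((k + 1) * 1390 + 1) = G 10 * (G 10 ^ 1390) ^ (k + 1) := by
      rw [← pow_mul, pow_succ, mul_comm (k + 1) 1390]; ring
    rw [e1]
    have e2 : ((((k + 1) * 1390 : ℕ) : ℝ) + 1) = 1390 * (k + 1) + 1 := by push_cast; ring
    rw [e2]
    have : (0 : ℝ) < 1390 * (k + 1) + 1 := by positivity
    gcongr
  have hs := Finset.sum_le_sum hterm
  have hs2 : (0.000496 : ℝ) ≤ ∑ k ∈ range 10, (0.9995 : ℝ) * 0.4993 ^ (k + 1) / (1390 * (k + 1) + 1) := by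
    norm_num [Finset.sum_range_succ]
  have hs3 := hs2.trans hs
  have : (1 + 1 / (10 : ℝ)) * 0.000496 ≤ (1 + 1 / (10 : ℝ)) * ∑ k ∈ range 10, G 10 ^ ((k + 1) * 1390 + 1) / ((((k + 1) * 1390 : ℕ) : ℝ) + 1) := by
    gcongr
  linarith

theorem partB : G (th 1390 (by norm_num) 2) ^ 1390 ≤ Real.exp (-0.69416) := by
  have h1 : th 1390 (by norm_num) 2 ≤ 10 := by
    rw [← (Tf_strict 1390 (by norm_num)).le_iff_le, Tf_th]
    exact partB_T
  have h2 := G_mono (th_nonneg 1390 (by norm_num) (by norm_num : (0:ℝ) ≤ 2)) (show (10:ℝ) ∈ Set.Ici 0 by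
    simp) h1
  have h3 := G_nonneg (th_nonneg 1390 (by norm_num) (by norm_num : (0:ℝ) ≤ 2))
  have hlo := e10_lo
  have hhi := e10_hi
  calc G (th 1390 (by norm_num) 2) ^ 1390 ≤ G 10 ^ 1390 := by gcongr
    _ ≤ Real.exp (-((1390 : ℕ) * (11 * Real.exp (-10)))) := by
        rw [G10]
        exact pow_hi (by linarith) 1390
    _ ≤ _ := by
        apply Real.exp_le_exp.mpr
        push_cast
        linarith

end Pool.Agent.V113.Ser
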