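import Pool.Agent.V113.Ser.Num

set_option autoImplicit false
open Finset Filter Topology

namespace Pool.Agent.V113.Ser

lemma E_hi : Real.exp (-10000) ≤ (6 / 1000000000000 : ℝ) := by
  have h := Real.pow_div_factorial_le_exp (10000 : ℝ) (by norm_num) 3
  rw [Real.exp_neg, inv_le_comm₀ (by positivity) (by norm_num)]
  refine le_trans ?_ h
  norm_num [Nat.factorial]

lemma F_hi : Real.exp (-5000) ≤ (1 / 100000 : ℝ) := by
  have h := Real.pow_div_factorial_le_exp (5000 : ℝ) (by norm_num) 2
  rw [Real.exp_neg, inv_le_comm₀ (by positivity) (by norm_num)]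
  refine le_trans ?_ h
  norm_num [Nat.factorial]

theorem partA : ∃ l : ℕ, 1390 ≤ l ∧ ∃ hl : 1 ≤ l, Real.exp (-0.69416) < G (th l hl 2) ^ l := by
  have hE1 := E_hi
  have hF1 := F_hi
  have hEF : Real.exp (-10000) = Real.exp (-5000) * Real.exp (-5000) := by
    rw [← Real.exp_add]; norm_num
  have hEE : Real.exp (-20000) = Real.exp (-10000) * Real.exp (-10000) := by
    rw [← Real.exp_add]; norm_num
  have hE0 := Real.exp_pos (-10000)
  have hF0 := Real.exp_pos (-5000)
  set E := Real.exp (-10000) with hE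
  set F := Real.exp (-5000) with hF
  set δ := E * 10001 with hδ
  have hδ0 : 0 < δ := by positivity
  have hδ1 : δ ≤ 1 / 10000000 := by rw [hδ]; linarith
  set l := ⌊0.694 / δ⌋₊ with hl
  have hl1 : l * δ ≤ 0.694 := by
    have := Nat.floor_le (a := 0.694 / δ) (by positivity)
    rw [← hl, le_div_iff₀ hδ0] at this
    exact this
  have hl2 : 0.694 < (l + 1) * δ := by
    have := Nat.lt_floor_add_one (0.694 / δ)
    rw [← hl, div_lt_iff₀ hδ0] at this
    exact this
  have hlδ : 0.6939999 ≤ l * δ := by linarith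
  have hlr : (6000000 : ℝ) < l := by
    by_contra hcon
    push Not at hcon
    have : (l : ℝ) * δ ≤ 6000000 * (1 / 10000000) := by gcongr
    norm_num at this
    linarith
  have hln : 6000000 < l := by exact_mod_cast hlr
  have hl3 : 1 ≤ l := by omega
  refine ⟨l, by omega, hl3, ?_⟩
  have hG : G 10000 = 1 - δ := by
    unfold G
    rw [hδ, ← hE]
    ring
  have hlr0 : (0 : ℝ) < l := by linarith
  -- upper bound for the time
  have hT : Tf l 10000 ≤ 2 := by
    have hu := upperT l hl3 (y := 10000) (a := 5000) (by norm_num) (by norm_num)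
    rw [hG] at hu
    set Wa := G 5000 ^ l with hWa
    have hWa0 : 0 ≤ Wa := pow_nonneg (G_nonneg (by norm_num)) l
    have hWa2 : Wa ≤ E * E := by
      have hGa : G 5000 = 1 - F * 5001 := by unfold G; rw [← hF]; ring
      rw [hWa, hGa, ← hEE]
      refine (pow_hi (by linarith) l).trans ?_
      apply Real.exp_le_exp.mpr
      have h1 : (l * (F * 5001)) * (2 * F) ≥ 0.69 := by
        have : (l : ℝ) * δ ≤ (l * (F * 5001)) * (2 * F) := by
          rw [hδ, hEF]
          have : (0 : ℝ) ≤ l * (F * F) := by positivity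
          linarith
        linarith
      by_contra hcon
      push Not at hcon
      have h2 : l * (F * 5001) < 20000 := by linarith
      have h3 : (l * (F * 5001)) * (2 * F) ≤ 20000 * (2 * (1 / 100000)) := by gcongr
      norm_num at h3
      linarith
    have hWa3 : Wa ≤ (1 / 10000000000 : ℝ) * E := by
      refine hWa2.trans ?_
      have : E ≤ (1 / 10000000000 : ℝ) := by linarith
      gcongr
    have hWa4 : Wa ≤ 1 / 2 := by linarith
    have hrho : Wa / (1 - Wa) ≤ 2 * Wa := by
      rw [div_le_iff₀ (by linarith)]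
      nlinarith
    have hrho0 : 0 ≤ Wa / (1 - Wa) := div_nonneg hWa0 (by linarith)
    have h1 : (1 + Wa / (1 - Wa)) * (2 - E * (2 + 10000)) ≤ 2 - E * 10002 + 2 * (2 * Wa) := by
      have : 0 ≤ Wa / (1 - Wa) * (E * 10002) := by positivity
      nlinarith
    -- the logarithmic part
    have hw : (1 - δ) ^ l ≤ Real.exp (-0.6939999) := by
      refine (pow_hi (by linarith) l).trans ?_
      apply Real.exp_le_exp.mpr
      linarith
    have hlog2 := Real.log_two_lt_d9
    have hx1 : Real.exp (-0.6939999) ≤ 0.49959 := by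
      refine (exp_hi (by linarith)).trans ?_
      rw [div_le_iff₀ (by linarith)]
      linarith
    have hx2 : Real.exp (-0.692612) ≤ 0.50028 := by
      refine (exp_hi (by linarith)).trans ?_
      rw [div_le_iff₀ (by linarith)]
      linarith
    have hlg : -(Real.log (1 - (1 - δ) ^ l)) ≤ 0.692612 := by
      have h2 : Real.exp (-0.692612) ≤ 1 - (1 - δ) ^ l := by linarith
      have h3 : 0 < 1 - (1 - δ) ^ l := lt_of_lt_of_le (Real.exp_pos _) h2
      have := (Real.le_log_iff_exp_le h3).mpr h2
      linarith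
    have h4 : (1 + 1 / 5000) * (-(Real.log (1 - (1 - δ) ^ l)) / l) ≤ 0.9983 * δ := by
      have h5 : -(Real.log (1 - (1 - δ) ^ l)) / l ≤ 0.692612 / l := by gcongr
      have h6 : (1 + 1 / 5000) * (0.692612 / (l : ℝ)) ≤ 0.9983 * δ := by
        rw [← mul_div_assoc, div_le_iff₀ hlr0]
        linarith
      refine le_trans ?_ h6
      gcongr
    have h7 : 2 - E * 10002 + 2 * (2 * Wa) + 0.9983 * δ ≤ 2 := by
      rw [hδ]
      linarith
    have hEe : Real.exp (-10000 : ℝ) = E := rfl
    linarith
  have hth : 10000 ≤ th l hl3 2 := by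
    rw [← (Tf_strict l hl3).le_iff_le, Tf_th]
    exact hT
  have h2 := G_mono (show (10000:ℝ) ∈ Set.Ici 0 by simp)
    (th_nonneg l hl3 (by norm_num : (0:ℝ) ≤ 2)) hth
  have h3 : 0 ≤ G 10000 := G_nonneg (by norm_num)
  calc Real.exp (-0.69416) < Real.exp (-(l * δ / (1 - δ))) := by
        apply Real.exp_lt_exp.mpr
        have : l * δ / (1 - δ) < 0.69416 := by
          rw [div_lt_iff₀ (by linarith)]
          linarith
        linarith
    _ ≤ (1 - δ) ^ l := pow_lo (by linarith) l
    _ = G 10000 ^ l := by rw [hG]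
    _ ≤ _ := by gcongr

/-- Longer lists can hurt: with two seats per school there is a list length `l ≥ 1390` such that
for all large `n` the student number `2n` is less likely to be matched than with length `1390`. -/
theorem main : ∃ l : ℕ, 1390 ≤ l ∧ ∃ N : ℕ, ∀ n : ℕ, N ≤ n →
    probMatched n l 2 (2 * n - 1) < probMatched n 1390 2 (2 * n - 1) := by
  obtain ⟨l, hl, hl1, hA⟩ := partA
  refine ⟨l, hl, ?_⟩
  have h1 := lim_prob l hl1
  have h2 := lim_prob 1390 (by norm_num)
  have hlt : 1 - G (th l hl1 2) ^ l < 1 - G (th 1390 (by norm_num) 2) ^ 1390 := by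
    have := partB
    linarith
  have := h1.eventually_lt h2 hlt
  obtain ⟨N, hN⟩ := eventually_atTop.mp this
  exact ⟨N, hN⟩

end Pool.Agent.V113.Ser
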