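import Pool.Agent.V113.Ser.Proc

set_option autoImplicit false
open Finset Filter Topology

namespace Pool.Agent.V113.Ser

/-- fraction of full schools in the time scale of proposals -/
noncomputable def G (u : ℝ) : ℝ := 1 - Real.exp (-u) * (1 + u)

lemma exp_neg_hasDeriv (u : ℝ) : HasDerivAt (fun u : ℝ => Real.exp (-u)) (-Real.exp (-u)) u := by
  have := (hasDerivAt_id u).neg.exp
  refine this.congr_deriv ?_
  simp

lemma G_hasDeriv (u : ℝ) : HasDerivAt G (u * Real.exp (-u)) u := by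
  have h1 := exp_neg_hasDeriv u
  have h2 : HasDerivAt (fun u : ℝ => 1 + u) 1 u := (hasDerivAt_id u).const_add 1
  have := (h1.mul h2).const_sub 1
  refine this.congr_deriv ?_
  ring

lemma G_cont : Continuous G := by unfold G; fun_prop

lemma G_zero : G 0 = 0 := by simp [G]

lemma G_mono : MonotoneOn G (Set.Ici 0) := by
  apply monotoneOn_of_deriv_nonneg (convex_Ici 0) G_cont.continuousOn
  · intro x _
    exact (G_hasDeriv x).differentiableAt.differentiableWithinAt
  · intro x hx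
    rw [interior_Ici] at hx
    rw [(G_hasDeriv x).deriv]
    have : (0 : ℝ) < x := hx
    positivity

lemma G_nonneg {u : ℝ} (hu : 0 ≤ u) : 0 ≤ G u := by
  have := G_mono (a := 0) (b := u) (by simp) (by simpa using hu) hu
  rwa [G_zero] at this

lemma G_lt_one {u : ℝ} (hu : 0 ≤ u) : G u < 1 := by
  unfold G
  have : 0 < Real.exp (-u) * (1 + u) := by positivity
  linarith

lemma S_one_le (d : ℕ) (hd : 1 ≤ d) {f : ℝ} (h0 : 0 ≤ f) : 1 ≤ S d f := by
  unfold S
  calc (1 : ℝ) = f ^ 0 := by simp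
    _ ≤ ∑ k ∈ range d, f ^ k :=
      Finset.single_le_sum (f := fun k => f ^ k) (fun k _ => pow_nonneg h0 k) (mem_range.mpr (by omega))

lemma S_cont (d : ℕ) : Continuous (S d) := by unfold S; fun_prop

/-- speed -/
noncomputable def hh (d : ℕ) (u : ℝ) : ℝ := (S d (G (max u 0)))⁻¹

section
variable (d : ℕ) (hd : 1 ≤ d)
include hd

lemma S_pos (u : ℝ) : 0 < S d (G (max u 0)) :=
  lt_of_lt_of_le one_pos (S_one_le d hd (G_nonneg (le_max_right u 0)))

lemma hh_cont : Continuous (hh d) := by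
  unfold hh
  refine Continuous.inv₀ ?_ (fun u => (S_pos d hd u).ne')
  exact (S_cont d).comp (G_cont.comp (continuous_id.max continuous_const))

lemma hh_ge (u : ℝ) : (1 : ℝ) / d ≤ hh d u := by
  unfold hh
  rw [one_div]
  apply inv_anti₀ (S_pos d hd u)
  exact S_le d (G_nonneg (le_max_right u 0)) (G_lt_one (le_max_right u 0)).le

lemma hh_pos (u : ℝ) : 0 < hh d u := inv_pos.mpr (S_pos d hd u)

end

/-- time as a function of the proposal time -/
noncomputable def Tf (d : ℕ) (y : ℝ) : ℝ := ∫ u in (0:ℝ)..y, hh d u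

section
variable (d : ℕ) (hd : 1 ≤ d)
include hd

lemma Tf_hasDeriv (y : ℝ) : HasDerivAt (Tf d) (hh d y) y :=
  ((hh_cont d hd).integral_hasStrictDerivAt 0 y).hasDerivAt

omit hd in
lemma Tf_zero : Tf d 0 = 0 := by simp [Tf]

lemma Tf_cont : Continuous (Tf d) :=
  continuous_iff_continuousAt.mpr fun y => (Tf_hasDeriv d hd y).continuousAt

lemma Tf_strict : StrictMono (Tf d) :=
  strictMono_of_hasDerivAt_pos (fun y => Tf_hasDeriv d hd y) (fun y => hh_pos d hd y)

lemma Tf_sub_mono : Monotone (fun y => Tf d y - y * (1 / (d : ℝ))) := by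
  have h : ∀ y, HasDerivAt (fun y => Tf d y - y * (1 / (d : ℝ))) (hh d y - 1 * (1 / (d : ℝ))) y := fun y =>
    (Tf_hasDeriv d hd y).sub ((hasDerivAt_id y).mul_const _)
  apply monotone_of_deriv_nonneg (fun y => (h y).differentiableAt)
  intro y
  rw [(h y).deriv]
  have := hh_ge d hd y
  linarith

lemma Tf_surj : Function.Surjective (Tf d) := by
  have hdr : (0 : ℝ) < 1 / d := by
    have : (0 : ℝ) < d := by exact_mod_cast hd
    positivity
  apply (Tf_cont d hd).surjective
  · apply tendsto_atTop_mono' atTop (f₁ := fun y : ℝ => y * (1 / (d : ℝ)))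
    · filter_upwards [eventually_ge_atTop (0 : ℝ)] with y hy
      have := Tf_sub_mono d hd hy
      simp only [Tf_zero, zero_mul, sub_zero] at this
      linarith
    · exact Tendsto.atTop_mul_const hdr tendsto_id
  · refine tendsto_atBot_mono' atBot (?_ : Tf d ≤ᶠ[atBot] fun y : ℝ => y * (1 / (d : ℝ))) ?_
    · filter_upwards [eventually_le_atBot (0 : ℝ)] with y hy
      have := Tf_sub_mono d hd hy
      simp only [Tf_zero, zero_mul, sub_zero] at this
      linarith
    · exact Tendsto.atBot_mul_const hdr tendsto_id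

end

/-- the inverse of `Tf d` -/
noncomputable def th (d : ℕ) (hd : 1 ≤ d) : ℝ ≃o ℝ :=
  (StrictMono.orderIsoOfSurjective (Tf d) (Tf_strict d hd) (Tf_surj d hd)).symm

lemma Tf_th (d : ℕ) (hd : 1 ≤ d) (t : ℝ) : Tf d (th d hd t) = t :=
  (StrictMono.orderIsoOfSurjective (Tf d) (Tf_strict d hd) (Tf_surj d hd)).apply_symm_apply t

lemma th_hasDeriv (d : ℕ) (hd : 1 ≤ d) (t : ℝ) :
    HasDerivAt (th d hd) (S d (G (max (th d hd t) 0))) t := by
  have h := HasDerivAt.of_local_left_inverse (f := Tf d) (g := th d hd) (f' := hh d (th d hd t)) (a := t)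
    ((th d hd).continuous.continuousAt) (Tf_hasDeriv d hd _) (hh_pos d hd _).ne'
    (Filter.Eventually.of_forall fun y => Tf_th d hd y)
  refine h.congr_deriv ?_
  unfold hh
  rw [inv_inv]

lemma th_zero (d : ℕ) (hd : 1 ≤ d) : th d hd 0 = 0 := by
  apply (Tf_strict d hd).injective
  rw [Tf_th, Tf_zero]

lemma th_nonneg (d : ℕ) (hd : 1 ≤ d) {t : ℝ} (ht : 0 ≤ t) : 0 ≤ th d hd t := by
  have := (th d hd).monotone ht
  rwa [th_zero] at this

lemma th_lip (d : ℕ) (hd : 1 ≤ d) {s t : ℝ} (ht : t ≤ s) : |th d hd s - th d hd t| ≤ d * (s - t) := by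
  have h := Convex.norm_image_sub_le_of_norm_hasDerivWithin_le (f := th d hd)
    (f' := fun t => S d (G (max (th d hd t) 0))) (C := d) (s := Set.univ) (x := t) (y := s)
    (fun x _ => (th_hasDeriv d hd x).hasDerivWithinAt)
    (fun x _ => by
      rw [Real.norm_eq_abs, abs_of_pos (S_pos d hd _)]
      exact S_le d (G_nonneg (le_max_right _ 0)) (G_lt_one (le_max_right _ 0)).le)
    convex_univ (Set.mem_univ _) (Set.mem_univ _)
  rw [Real.norm_eq_abs, Real.norm_eq_abs, abs_of_nonneg (sub_nonneg.mpr ht)] at h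
  exact h

lemma taylor {f f' : ℝ → ℝ} {t h M : ℝ} (h0 : 0 < h)
    (hf : ∀ s ∈ Set.Icc t (t + h), HasDerivAt f (f' s) s)
    (hl : ∀ s ∈ Set.Icc t (t + h), |f' s - f' t| ≤ M * (s - t)) (hM : 0 ≤ M) :
    |f (t + h) - f t - h * f' t| ≤ M * h ^ 2 := by
  have hg : ∀ s ∈ Set.Icc t (t + h), HasDerivWithinAt (fun s => f s - s * f' t) (f' s - 1 * f' t) (Set.Icc t (t + h)) s :=
    fun s hs => ((hf s hs).sub ((hasDerivAt_id s).mul_const _)).hasDerivWithinAt
  have := Convex.norm_image_sub_le_of_norm_hasDerivWithin_le (f := fun s => f s - s * f' t)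
    (f' := fun s => f' s - 1 * f' t) (C := M * h) (s := Set.Icc t (t + h)) (x := t) (y := t + h) hg
    (fun s hs => by
      rw [Real.norm_eq_abs, one_mul]
      refine (hl s hs).trans ?_
      have : s - t ≤ h := by linarith [hs.2]
      gcongr)
    (convex_Icc _ _) (Set.left_mem_Icc.mpr (by linarith)) (Set.right_mem_Icc.mpr (by linarith))
  rw [Real.norm_eq_abs, Real.norm_eq_abs] at this
  have e1 : f (t + h) - (t + h) * f' t - (f t - t * f' t) = f (t + h) - f t - h * f' t := by ring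
  have e2 : |t + h - t| = h := by rw [add_sub_cancel_left, abs_of_pos h0]
  rw [e1, e2] at this
  calc _ ≤ _ := this
    _ = _ := by ring

noncomputable def X0 (d : ℕ) (hd : 1 ≤ d) (t : ℝ) : ℝ := Real.exp (-(th d hd t))
noncomputable def X1 (d : ℕ) (hd : 1 ≤ d) (t : ℝ) : ℝ := th d hd t * Real.exp (-(th d hd t))

lemma exp_lip {a b : ℝ} (ha : 0 ≤ a) (hb : 0 ≤ b) : |Real.exp (-b) - Real.exp (-a)| ≤ |b - a| := by
  have h := Convex.norm_image_sub_le_of_norm_hasDerivWithin_le (f := fun u : ℝ => Real.exp (-u))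
    (f' := fun u => -Real.exp (-u)) (C := 1) (s := Set.Ici 0) (x := a) (y := b)
    (fun x _ => (exp_neg_hasDeriv x).hasDerivWithinAt)
    (fun x hx => by
      have hx0 : (0 : ℝ) ≤ x := hx
      rw [norm_neg, Real.norm_eq_abs, abs_of_pos (Real.exp_pos _)]
      exact Real.exp_le_one_iff.mpr (by linarith))
    (convex_Ici 0) ha hb
  rw [Real.norm_eq_abs, Real.norm_eq_abs, one_mul] at h
  exact h

lemma uexp_hasDeriv (u : ℝ) : HasDerivAt (fun u : ℝ => u * Real.exp (-u)) (Real.exp (-u) - u * Real.exp (-u)) u := by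
  have := (hasDerivAt_id u).mul (exp_neg_hasDeriv u)
  refine this.congr_deriv ?_
  simp
  ring

lemma uexp_lip {a b : ℝ} (ha : 0 ≤ a) (hb : 0 ≤ b) :
    |b * Real.exp (-b) - a * Real.exp (-a)| ≤ |b - a| := by
  have h := Convex.norm_image_sub_le_of_norm_hasDerivWithin_le (f := fun u : ℝ => u * Real.exp (-u))
    (f' := fun u => Real.exp (-u) - u * Real.exp (-u)) (C := 1) (s := Set.Ici 0) (x := a) (y := b)
    (fun x _ => (uexp_hasDeriv x).hasDerivWithinAt)
    (fun x hx => by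
      have hx0 : (0 : ℝ) ≤ x := hx
      rw [Real.norm_eq_abs, abs_le]
      have h1 : 1 + x ≤ Real.exp x := by linarith [Real.add_one_le_exp x]
      have h2 : Real.exp x * Real.exp (-x) = 1 := by rw [← Real.exp_add]; simp
      have h3 := Real.exp_pos (-x)
      constructor <;> nlinarith [mul_nonneg hx0 h3.le])
    (convex_Ici 0) ha hb
  rw [Real.norm_eq_abs, Real.norm_eq_abs, one_mul] at h
  exact h

lemma X_one (d : ℕ) (hd : 1 ≤ d) (t : ℝ) : 1 - X0 d hd t - X1 d hd t = G (th d hd t) := by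
  unfold X0 X1 G; ring

lemma X0_hasDeriv (d : ℕ) (hd : 1 ≤ d) {t : ℝ} (ht : 0 ≤ t) :
    HasDerivAt (X0 d hd) (-(S d (1 - X0 d hd t - X1 d hd t) * X0 d hd t)) t := by
  have h := (th_hasDeriv d hd t).neg.exp
  refine h.congr_deriv ?_
  rw [X_one, max_eq_left (th_nonneg d hd ht)]
  unfold X0
  simp
  ring

lemma X1_hasDeriv (d : ℕ) (hd : 1 ≤ d) {t : ℝ} (ht : 0 ≤ t) :
    HasDerivAt (X1 d hd) (S d (1 - X0 d hd t - X1 d hd t) * (X0 d hd t - X1 d hd t)) t := by
  have h := (th_hasDeriv d hd t).mul (th_hasDeriv d hd t).neg.exp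
  refine h.congr_deriv ?_
  rw [X_one, max_eq_left (th_nonneg d hd ht)]
  unfold X0 X1
  simp
  ring

lemma G_lip {a b : ℝ} (ha : 0 ≤ a) (hb : 0 ≤ b) : |G b - G a| ≤ 2 * |b - a| := by
  have h1 := exp_lip ha hb
  have h2 := uexp_lip ha hb
  have : G b - G a = -(Real.exp (-b) - Real.exp (-a)) - (b * Real.exp (-b) - a * Real.exp (-a)) := by
    unfold G; ring
  rw [this]
  calc _ ≤ |-(Real.exp (-b) - Real.exp (-a))| + |b * Real.exp (-b) - a * Real.exp (-a)| := abs_sub _ _
    _ = |Real.exp (-b) - Real.exp (-a)| + |b * Real.exp (-b) - a * Real.exp (-a)| := by rw [abs_neg]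
    _ ≤ _ := by linarith

theorem traj (d : ℕ) (hd : 1 ≤ d) : Traj d (X0 d hd) (X1 d hd) (2 * (d : ℝ) ^ 3 + 2 * (d : ℝ) ^ 2) := by
  have n0 : ∀ t, 0 ≤ t → 0 ≤ X0 d hd t := fun t _ => (Real.exp_pos _).le
  have n1 : ∀ t, 0 ≤ t → 0 ≤ X1 d hd t := fun t ht => mul_nonneg (th_nonneg d hd ht) (Real.exp_pos _).le
  have le1 : ∀ t, 0 ≤ t → X0 d hd t + X1 d hd t ≤ 1 := fun t ht => by
    have := G_nonneg (th_nonneg d hd ht)
    rw [← X_one] at this
    linarith
  have hGlip : ∀ t s, 0 ≤ t → t ≤ s → |S d (1 - X0 d hd s - X1 d hd s) - S d (1 - X0 d hd t - X1 d hd t)|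
      ≤ 2 * (d : ℝ) ^ 3 * (s - t) := by
    intro t s ht hs
    rw [X_one, X_one]
    have hs0 := ht.trans hs
    refine (S_lip d (G_nonneg (th_nonneg d hd hs0)) (G_lt_one (th_nonneg d hd hs0)).le
      (G_nonneg (th_nonneg d hd ht)) (G_lt_one (th_nonneg d hd ht)).le).trans ?_
    calc (d : ℝ) ^ 2 * |G (th d hd s) - G (th d hd t)|
        ≤ (d : ℝ) ^ 2 * (2 * (d * (s - t))) := by
          gcongr
          exact (G_lip (th_nonneg d hd ht) (th_nonneg d hd hs0)).trans (by
            have := th_lip d hd hs; linarith)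
      _ = _ := by ring
  have hSb : ∀ t, 0 ≤ t → 0 ≤ S d (1 - X0 d hd t - X1 d hd t) ∧ S d (1 - X0 d hd t - X1 d hd t) ≤ d := by
    intro t ht
    rw [X_one]
    exact ⟨S_nonneg d (G_nonneg (th_nonneg d hd ht)),
      S_le d (G_nonneg (th_nonneg d hd ht)) (G_lt_one (th_nonneg d hd ht)).le⟩
  have hX0 : ∀ t s, 0 ≤ t → t ≤ s → |X0 d hd s - X0 d hd t| ≤ d * (s - t) := fun t s ht hs =>
    (exp_lip (th_nonneg d hd ht) (th_nonneg d hd (ht.trans hs))).trans (th_lip d hd hs)
  have hX1 : ∀ t s, 0 ≤ t → t ≤ s → |X1 d hd s - X1 d hd t| ≤ d * (s - t) := fun t s ht hs =>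
    (uexp_lip (th_nonneg d hd ht) (th_nonneg d hd (ht.trans hs))).trans (th_lip d hd hs)
  have gen : ∀ (a b c e p : ℝ), |a - b| ≤ 2 * (d : ℝ) ^ 3 * p → 0 ≤ b → b ≤ d → |c| ≤ 1 →
      |c - e| ≤ 2 * d * p → 0 ≤ p → |a * c - b * e| ≤ (2 * (d : ℝ) ^ 3 + 2 * (d : ℝ) ^ 2) * p := by
    intro a b c e p h1 h2 h3 h4 h5 h6
    have : a * c - b * e = (a - b) * c + b * (c - e) := by ring
    rw [this]
    calc |(a - b) * c + b * (c - e)| ≤ |(a - b) * c| + |b * (c - e)| := abs_add_le _ _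
      _ = |a - b| * |c| + b * |c - e| := by rw [abs_mul, abs_mul, abs_of_nonneg h2]
      _ ≤ (2 * (d : ℝ) ^ 3 * p) * 1 + d * (2 * d * p) := by gcongr
      _ = _ := by ring
  have hd0 : (0 : ℝ) ≤ d := by positivity
  constructor
  · positivity
  · unfold X0; rw [th_zero]; simp
  · unfold X1; rw [th_zero]; simp
  · exact n0
  · exact n1
  · exact le1
  · intro t h ht hh0 hh1
    have := taylor (f := X0 d hd) (f' := fun s => -(S d (1 - X0 d hd s - X1 d hd s) * X0 d hd s))
      (t := t) (h := h) (M := 2 * (d : ℝ) ^ 3 + 2 * (d : ℝ) ^ 2) hh0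
      (fun s hs => X0_hasDeriv d hd (ht.trans hs.1))
      (fun s hs => by
        have hs0 := ht.trans hs.1
        have hp : 0 ≤ s - t := sub_nonneg.mpr hs.1
        have := gen _ _ (X0 d hd s) (X0 d hd t) (s - t) (hGlip t s ht hs.1) (hSb t ht).1 (hSb t ht).2
          (by rw [abs_le]; constructor <;> linarith [n0 s hs0, n1 s hs0, le1 s hs0])
          ((hX0 t s ht hs.1).trans (by nlinarith [mul_nonneg hd0 hp])) hp
        rw [← abs_neg]
        refine le_trans (le_of_eq ?_) this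
        congr 1
        ring)
      (by positivity)
    refine le_trans (le_of_eq ?_) this
    congr 1
    ring
  · intro t h ht hh0 hh1
    exact taylor (f := X1 d hd) (f' := fun s => S d (1 - X0 d hd s - X1 d hd s) * (X0 d hd s - X1 d hd s))
      (t := t) (h := h) (M := 2 * (d : ℝ) ^ 3 + 2 * (d : ℝ) ^ 2) hh0
      (fun s hs => X1_hasDeriv d hd (ht.trans hs.1))
      (fun s hs => by
        have hs0 := ht.trans hs.1
        have hp : 0 ≤ s - t := sub_nonneg.mpr hs.1
        refine gen _ _ (X0 d hd s - X1 d hd s) (X0 d hd t - X1 d hd t) (s - t) (hGlip t s ht hs.1) (hSb t ht).1 (hSb t ht).2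
          (by rw [abs_le]; constructor <;> linarith [n0 s hs0, n1 s hs0, le1 s hs0]) ?_ hp
        have e : X0 d hd s - X1 d hd s - (X0 d hd t - X1 d hd t) = (X0 d hd s - X0 d hd t) - (X1 d hd s - X1 d hd t) := by ring
        rw [e]
        refine (abs_sub _ _).trans ?_
        have a1 := hX0 t s ht hs.1
        have a2 := hX1 t s ht hs.1
        linarith)
      (by positivity)
  · unfold X0
    have := (th d hd).continuous
    fun_prop
  · unfold X1
    have := (th d hd).continuous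
    fun_prop

/-- the limit of the matching probability of student `2n` -/
theorem lim_prob (d : ℕ) (hd : 1 ≤ d) :
    Tendsto (fun n : ℕ => probMatched n d 2 (2 * n - 1)) atTop (𝓝 (1 - G (th d hd 2) ^ d)) := by
  have := prob_tendsto (traj d hd) hd
  rwa [X_one] at this

end Pool.Agent.V113.Ser
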