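import Pool.Agent.V113.Ser.Lln

set_option autoImplicit false
open Finset Filter Topology

namespace Pool.Agent.V113.Ser

/-- a trajectory of the limiting equation -/
structure Traj (d : ℕ) (x0 x1 : ℝ → ℝ) (L : ℝ) : Prop where
  hL : 0 ≤ L
  z0 : x0 0 = 1
  z1 : x1 0 = 0
  n0 : ∀ t, 0 ≤ t → 0 ≤ x0 t
  n1 : ∀ t, 0 ≤ t → 0 ≤ x1 t
  le : ∀ t, 0 ≤ t → x0 t + x1 t ≤ 1
  d0 : ∀ t h, 0 ≤ t → 0 < h → h ≤ 1 →
    |x0 (t + h) - x0 t + h * (S d (1 - x0 t - x1 t) * x0 t)| ≤ L * h ^ 2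
  d1 : ∀ t h, 0 ≤ t → 0 < h → h ≤ 1 →
    |x1 (t + h) - x1 t - h * (S d (1 - x0 t - x1 t) * (x0 t - x1 t))| ≤ L * h ^ 2
  c0 : Continuous x0
  c1 : Continuous x1

noncomputable def Ph (x0 x1 : ℝ → ℝ) (n : ℕ) (t : ℝ) (a b : ℕ) : ℝ :=
  ((a : ℝ) / n - x0 t) ^ 2 + ((b : ℝ) / n - x1 t) ^ 2

noncomputable def C1 (d : ℕ) (L : ℝ) : ℝ :=
  4 * (4 * (d : ℝ) ^ 3 + L) + 2 * ((d : ℝ) + L) ^ 2 + 4 * ((d : ℝ) + L) + 2

variable {d : ℕ} {x0 x1 : ℝ → ℝ} {L : ℝ}

lemma step_c (T : Traj d x0 x1 L) (n : ℕ) (hd : 1 ≤ d) (hn : 2 * d ≤ n) (t : ℝ) (ht : 0 ≤ t)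
    (c : Fin n → ℕ) :
    ∑ l : Fin d ↪ Fin n, Ph x0 x1 n (t + 1 / n) (Z0 (nxt c (seat 2 c l))) (Z1 (nxt c (seat 2 c l)))
      ≤ (n.descFactorial d : ℝ) * ((1 + 8 * (d : ℝ) ^ 2 * (1 / n)) * Ph x0 x1 n t (Z0 c) (Z1 c)
        + C1 d L * (1 / (n : ℝ)) ^ 2) := by
  obtain ⟨m, hm, hk⟩ := kernel (d := d) c
  rw [hk]
  set a := Z0 c with ha
  set b := Z1 c with hb
  set F := Fu c with hF
  set N : ℝ := (n.descFactorial d : ℝ) with hN
  have hsum : a + b + F = n := Z_sum c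
  have hn0 : 0 < n := by omega
  have hnr : (0 : ℝ) < n := by exact_mod_cast hn0
  have hNpos : 0 < N := by
    rw [hN]; exact_mod_cast Nat.descFactorial_pos.mpr (by omega)
  set h : ℝ := 1 / n with hh
  have h0 : 0 < h := by positivity
  have hn1r : (1 : ℝ) ≤ n := by exact_mod_cast hn0
  have h1 : h ≤ 1 := by rw [hh, div_le_one hnr]; exact hn1r
  set r : ℝ := m / N with hr
  have hr0 : 0 ≤ r := by positivity
  have hmN : (F.descFactorial d : ℝ) = N * (1 - r * (a + b)) := by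
    have : (F.descFactorial d : ℝ) + m * (a + b) = N := by rw [hN]; exact_mod_cast hm
    rw [hr]; field_simp; linarith
  have hrab : r * (a + b) ≤ 1 := by
    have : (0 : ℝ) ≤ N * (1 - r * (a + b)) := by rw [← hmN]; positivity
    have := nonneg_of_mul_nonneg_right this hNpos
    linarith
  have hmr : (m : ℝ) = N * r := by rw [hr]; field_simp
  set α := x0 t with hα
  set β := x1 t with hβ
  set da := x0 (t + h) - x0 t with hda
  set db := x1 (t + h) - x1 t with hdb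
  have ea : x0 (t + h) = α + da := by rw [hda, hα]; ring
  have eb : x1 (t + h) = β + db := by rw [hdb, hβ]; ring
  set u : ℝ := (a : ℝ) / n with hu
  set v : ℝ := (b : ℝ) / n with hv
  have hdiv : ∀ z : ℝ, z / n = z * h := by intro z; rw [hh]; ring
  have hA1 : (a : ℝ) * Ph x0 x1 n (t + h) (a - 1) (b + 1)
      = a * ((u - h - (α + da)) ^ 2 + (v + h - (β + db)) ^ 2) := by
    rcases Nat.eq_zero_or_pos a with h' | h'
    · rw [h']; simp
    · unfold Ph
      rw [ea, eb]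
      push_cast [Nat.cast_sub h']
      rw [hu, hv]
      congr 1
      rw [sub_div, add_div, ← hh]
  have hB1 : (b : ℝ) * Ph x0 x1 n (t + h) a (b - 1)
      = b * ((u - (α + da)) ^ 2 + (v - h - (β + db)) ^ 2) := by
    rcases Nat.eq_zero_or_pos b with h' | h'
    · rw [h']; simp
    · unfold Ph
      rw [ea, eb]
      push_cast [Nat.cast_sub h']
      rw [hu, hv]
      congr 1
      rw [sub_div, ← hh]
  rw [hA1, hB1]
  have hC : Ph x0 x1 n (t + h) a b = (u - (α + da)) ^ 2 + (v - (β + db)) ^ 2 := by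
    unfold Ph; rw [ea, eb]
  rw [hC, hmN, hmr]
  have hD : Ph x0 x1 n t a b = (u - α) ^ 2 + (v - β) ^ 2 := rfl
  rw [hD]
  have hbig : N * (1 - r * (a + b)) * ((u - (α + da)) ^ 2 + (v - (β + db)) ^ 2) +
      N * r * (a * ((u - h - (α + da)) ^ 2 + (v + h - (β + db)) ^ 2) +
        b * ((u - (α + da)) ^ 2 + (v - h - (β + db)) ^ 2))
      = N * ((u - (α + da)) ^ 2 + (v - (β + db)) ^ 2
      + (r * a) * (-2 * h * (u - (α + da)) + 2 * h * (v - (β + db)) + 2 * h ^ 2)
      + (r * b) * (-2 * h * (v - (β + db)) + h ^ 2)) := by ring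
  rw [hbig]
  have ha0 : (0 : ℝ) ≤ a := by positivity
  have hb0 : (0 : ℝ) ≤ b := by positivity
  have habn : (a : ℝ) + b ≤ n := by
    have : a + b ≤ n := by omega
    exact_mod_cast this
  have huv : u + v ≤ 1 := by
    rw [hu, hv, ← add_div, div_le_one hnr]; exact habn
  have hu0 : 0 ≤ u := by positivity
  have hv0 : 0 ≤ v := by positivity
  have hFr : (F : ℝ) / n = 1 - u - v := by
    have : (a : ℝ) + b + F = n := by exact_mod_cast hsum
    rw [hu, hv]; field_simp; linarith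
  have hrs : (a + b = 0) ∨ |n * r - S d (1 - u - v)| ≤ 4 * (d : ℝ) ^ 3 * h := by
    rcases Nat.eq_zero_or_pos (a + b) with h' | h'
    · left; exact h'
    · right
      rw [← hFr]
      have := s_close n F d (by omega) hn r (by
        unfold tk
        rw [← hN, hmN]
        have : (n : ℝ) - F = a + b := by
          have : (a : ℝ) + b + F = n := by exact_mod_cast hsum
          linarith
        rw [this]; field_simp; ring)
      rw [hh]; calc _ ≤ 4 * (d : ℝ) ^ 3 / n := this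
        _ = _ := by ring
  have hraw : r * a = n * r * u := by rw [hu]; field_simp
  have hrbw : r * b = n * r * v := by rw [hv]; field_simp
  have hP : |r * a - S d (1 - u - v) * u| ≤ 4 * (d : ℝ) ^ 3 * h := by
    rcases hrs with h' | h'
    · have ha' : a = 0 := by omega
      have : u = 0 := by rw [hu, ha']; simp
      rw [this, ha']; simp; positivity
    · rw [hraw, ← sub_mul, abs_mul, abs_of_nonneg hu0]
      calc |n * r - S d (1 - u - v)| * u ≤ (4 * (d : ℝ) ^ 3 * h) * 1 := by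
            gcongr; linarith
        _ = _ := by ring
  have hQ : |(r * a - r * b) - S d (1 - u - v) * (u - v)| ≤ 4 * (d : ℝ) ^ 3 * h := by
    rcases hrs with h' | h'
    · have ha' : a = 0 := by omega
      have hb' : b = 0 := by omega
      have : u = 0 := by rw [hu, ha']; simp
      have h2 : v = 0 := by rw [hv, hb']; simp
      rw [this, h2, ha', hb']; simp; positivity
    · rw [hraw, hrbw, ← mul_sub, ← sub_mul, abs_mul]
      have : |u - v| ≤ 1 := by rw [abs_le]; constructor <;> linarith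
      calc |n * r - S d (1 - u - v)| * |u - v| ≤ (4 * (d : ℝ) ^ 3 * h) * 1 := by
            gcongr
        _ = _ := by ring
  have hαn := T.n0 t ht
  have hβn := T.n1 t ht
  have hαβ := T.le t ht
  rw [← hα] at hαn; rw [← hβ] at hβn; rw [← hα, ← hβ] at hαβ
  have hdr : (1 : ℝ) ≤ d := by exact_mod_cast hd
  have := step_ineq (d : ℝ) (4 * (d : ℝ) ^ 3) L h u v α β da db (r * a) (r * b)
    (S d (1 - u - v)) (S d (1 - α - β)) hdr (by positivity) T.hL h0 h1 hu0 hv0 huv hαn hβn hαβ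
    (by positivity) (by positivity) (by linarith) (S_nonneg d (by linarith))
    (S_le d (by linarith) (by linarith)) (S_nonneg d (by linarith))
    (S_le d (by linarith) (by linarith))
    (by
      refine (S_lip d (by linarith) (by linarith) (by linarith) (by linarith)).trans ?_
      have h3 : |1 - u - v - (1 - α - β)| ≤ |u - α| + |v - β| := by
        have : 1 - u - v - (1 - α - β) = -(u - α) - (v - β) := by ring
        rw [this]
        calc |-(u - α) - (v - β)| ≤ |-(u - α)| + |v - β| := abs_sub _ _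
          _ = _ := by rw [abs_neg]
      gcongr)
    hP hQ
    (by
      have := T.d0 t h ht h0 h1
      rw [← hα, ← hβ] at this
      exact this)
    (by
      have := T.d1 t h ht h0 h1
      rw [← hα, ← hβ] at this
      exact this)
  unfold C1
  exact mul_le_mul_of_nonneg_left this hNpos.le

/-- normalised mean square distance -/
lemma ms_rec (T : Traj d x0 x1 L) (n : ℕ) (hd : 1 ≤ d) (hn : 2 * d ≤ n) :
    ∀ i : ℕ, Es n d i (Ph x0 x1 n ((i : ℝ) / n)) ≤
      (n.descFactorial d : ℝ) ^ i * (C1 d L * (1 / (n : ℝ)) ^ 2 * i * (1 + 8 * (d : ℝ) ^ 2 * (1 / n)) ^ i) := by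
  have hn0 : 0 < n := by omega
  have hnr : (0 : ℝ) < n := by exact_mod_cast hn0
  have hNpos : (0 : ℝ) < (n.descFactorial d : ℝ) := by
    exact_mod_cast Nat.descFactorial_pos.mpr (by omega)
  have hC1 : 0 ≤ C1 d L := by unfold C1; have := T.hL; positivity
  intro i
  induction i with
  | zero =>
    have hz : ∀ Lf : Fin 0 → (Fin d ↪ Fin n), Ph x0 x1 n ((0 : ℕ) / n) (Z0 (load 2 0 Lf)) (Z1 (load 2 0 Lf)) = 0 := by
      intro Lf
      have h1 : Z0 (load 2 0 Lf) = n := by simp [Z0, load]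
      have h2 : Z1 (load 2 0 Lf) = 0 := by simp [Z1, load]
      rw [h1, h2]
      unfold Ph
      simp [T.z0, T.z1, hnr.ne']
    unfold Es
    rw [Finset.sum_congr rfl (fun Lf _ => hz Lf)]
    simp
  | succ i ih =>
    rw [Es_succ]
    set N : ℝ := (n.descFactorial d : ℝ) with hN
    set h : ℝ := 1 / n with hh
    have h0 : 0 < h := by positivity
    set q : ℝ := 1 + 8 * (d : ℝ) ^ 2 * h with hq
    have hq1 : 1 ≤ q := by rw [hq]; have : 0 ≤ 8 * (d : ℝ) ^ 2 * h := by positivity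
                           linarith
    have hti : (((i + 1 : ℕ) : ℝ)) / n = (i : ℝ) / n + 1 / n := by push_cast; ring
    rw [hti]
    have hstep : ∀ Lf : Fin i → (Fin d ↪ Fin n), ∑ l : Fin d ↪ Fin n,
        Ph x0 x1 n ((i : ℝ) / n + 1 / n) (Z0 (nxt (load 2 i Lf) (seat 2 (load 2 i Lf) l)))
          (Z1 (nxt (load 2 i Lf) (seat 2 (load 2 i Lf) l)))
        ≤ N * (q * Ph x0 x1 n ((i : ℝ) / n) (Z0 (load 2 i Lf)) (Z1 (load 2 i Lf)) + C1 d L * h ^ 2) := by
      intro Lf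
      exact step_c T n hd hn ((i : ℝ) / n) (by positivity) (load 2 i Lf)
    have hcard : (((univ : Finset (Fin i → (Fin d ↪ Fin n))).card : ℝ)) = N ^ i := by
      rw [card_univ, Fintype.card_fun, Fintype.card_embedding_eq]
      simp [hN]
    calc ∑ Lf : Fin i → (Fin d ↪ Fin n), ∑ l : Fin d ↪ Fin n,
          Ph x0 x1 n ((i : ℝ) / n + 1 / n) (Z0 (nxt (load 2 i Lf) (seat 2 (load 2 i Lf) l)))
            (Z1 (nxt (load 2 i Lf) (seat 2 (load 2 i Lf) l)))
        ≤ ∑ Lf : Fin i → (Fin d ↪ Fin n),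
          N * (q * Ph x0 x1 n ((i : ℝ) / n) (Z0 (load 2 i Lf)) (Z1 (load 2 i Lf)) + C1 d L * h ^ 2) :=
          Finset.sum_le_sum fun Lf _ => hstep Lf
      _ = N * (q * Es n d i (Ph x0 x1 n ((i : ℝ) / n)) + N ^ i * (C1 d L * h ^ 2)) := by
          rw [← Finset.mul_sum, Finset.sum_add_distrib, ← Finset.mul_sum, Finset.sum_const,
            nsmul_eq_mul, hcard]
          rfl
      _ ≤ N * (q * (N ^ i * (C1 d L * h ^ 2 * i * q ^ i)) + N ^ i * (C1 d L * h ^ 2)) := by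
          gcongr
      _ = N ^ (i + 1) * (C1 d L * h ^ 2 * (i * q ^ (i + 1) + 1)) := by ring
      _ ≤ N ^ (i + 1) * (C1 d L * h ^ 2 * (i * q ^ (i + 1) + q ^ (i + 1))) := by
          have : 1 ≤ q ^ (i + 1) := one_le_pow₀ hq1
          gcongr
      _ = N ^ (i + 1) * (C1 d L * h ^ 2 * ((i + 1 : ℕ) : ℝ) * q ^ (i + 1)) := by push_cast; ring

lemma ms_bound (T : Traj d x0 x1 L) (n : ℕ) (hd : 1 ≤ d) (hn : 2 * d ≤ n) (i : ℕ) (hi : i ≤ 2 * n) :
    Es n d i (Ph x0 x1 n ((i : ℝ) / n)) ≤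
      (n.descFactorial d : ℝ) ^ i * (2 * C1 d L * Real.exp (16 * (d : ℝ) ^ 2) / n) := by
  have hn0 : 0 < n := by omega
  have hnr : (0 : ℝ) < n := by exact_mod_cast hn0
  have hNpos : (0 : ℝ) < (n.descFactorial d : ℝ) := by
    exact_mod_cast Nat.descFactorial_pos.mpr (by omega)
  have hC1 : 0 ≤ C1 d L := by unfold C1; have := T.hL; positivity
  refine (ms_rec T n hd hn i).trans ?_
  have hir : (i : ℝ) ≤ 2 * n := by exact_mod_cast hi
  have hq : (1 + 8 * (d : ℝ) ^ 2 * (1 / n)) ^ i ≤ Real.exp (16 * (d : ℝ) ^ 2) := by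
    calc (1 + 8 * (d : ℝ) ^ 2 * (1 / n)) ^ i ≤ (Real.exp (8 * (d : ℝ) ^ 2 * (1 / n))) ^ i := by
          apply pow_le_pow_left₀ (by positivity)
          linarith [Real.add_one_le_exp (8 * (d : ℝ) ^ 2 * (1 / n))]
      _ = Real.exp (i * (8 * (d : ℝ) ^ 2 * (1 / n))) := by rw [← Real.exp_nat_mul]
      _ ≤ Real.exp (16 * (d : ℝ) ^ 2) := by
          apply Real.exp_le_exp.mpr
          calc (i : ℝ) * (8 * (d : ℝ) ^ 2 * (1 / n)) ≤ (2 * n) * (8 * (d : ℝ) ^ 2 * (1 / n)) := by gcongr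
            _ = 16 * (d : ℝ) ^ 2 := by field_simp; ring
  apply mul_le_mul_of_nonneg_left _ (by positivity)
  calc C1 d L * (1 / (n : ℝ)) ^ 2 * i * (1 + 8 * (d : ℝ) ^ 2 * (1 / n)) ^ i
      ≤ C1 d L * (1 / (n : ℝ)) ^ 2 * (2 * n) * Real.exp (16 * (d : ℝ) ^ 2) := by gcongr
    _ = 2 * C1 d L * Real.exp (16 * (d : ℝ) ^ 2) / n := by field_simp

/-- quantitative limit -/
lemma prob_close (T : Traj d x0 x1 L) (n : ℕ) (hd : 1 ≤ d) (hn : 2 * d ≤ n) (i : ℕ) (hi : i ≤ 2 * n)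
    (ε : ℝ) (hε : 0 < ε) :
    |probMatched n d 2 i - (1 - (1 - x0 ((i : ℝ) / n) - x1 ((i : ℝ) / n)) ^ d)|
      ≤ 2 * (d : ℝ) ^ 2 / n + d * (ε + (2 * C1 d L * Real.exp (16 * (d : ℝ) ^ 2) / n) / ε) := by
  have hn0 : 0 < n := by omega
  have hnr : (0 : ℝ) < n := by exact_mod_cast hn0
  set N : ℝ := (n.descFactorial d : ℝ) with hN
  have hNpos : (0 : ℝ) < N := by
    rw [hN]; exact_mod_cast Nat.descFactorial_pos.mpr (by omega)
  set t : ℝ := (i : ℝ) / n with ht
  have ht0 : 0 ≤ t := by positivity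
  set f : ℝ := 1 - x0 t - x1 t with hf
  have hf0 : 0 ≤ f := by have := T.le t ht0; rw [hf]; linarith
  have hf1 : f ≤ 1 := by have := T.n0 t ht0; have := T.n1 t ht0; rw [hf]; linarith
  rw [probMatched_eq i (by omega), ← hN]
  have hcard : (((univ : Finset (Fin i → (Fin d ↪ Fin n))).card : ℝ)) = N ^ i := by
    rw [card_univ, Fintype.card_fun, Fintype.card_embedding_eq]
    simp [hN]
  have hpt : ∀ Lf : Fin i → (Fin d ↪ Fin n),
      |((((n - Z0 (load 2 i Lf) - Z1 (load 2 i Lf)).descFactorial d : ℕ) : ℝ) / N) - f ^ d|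
      ≤ 2 * (d : ℝ) ^ 2 / n + d * (ε + Ph x0 x1 n t (Z0 (load 2 i Lf)) (Z1 (load 2 i Lf)) / ε) := by
    intro Lf
    set a := Z0 (load 2 i Lf)
    set b := Z1 (load 2 i Lf)
    have hsum : a + b + Fu (load 2 i Lf) = n := Z_sum _
    set F := n - a - b with hFdef
    have hFs : a + b + F = n := by omega
    have hFn : F ≤ n := by omega
    have hFr : (F : ℝ) / n = 1 - (a : ℝ) / n - (b : ℝ) / n := by
      have : (a : ℝ) + b + F = n := by exact_mod_cast hFs
      field_simp; linarith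
    have h1 := tk_close n F d hFn hn hn0 d le_rfl
    have hF0 : (0 : ℝ) ≤ (F : ℝ) / n := by positivity
    have hF1 : (F : ℝ) / n ≤ 1 := by rw [div_le_one hnr]; exact_mod_cast hFn
    have h2 := pow_lip d hF0 hF1 hf0 hf1
    have h3 : |(F : ℝ) / n - f| ≤ |(a : ℝ) / n - x0 t| + |(b : ℝ) / n - x1 t| := by
      rw [hFr, hf]
      have : 1 - (a : ℝ) / n - (b : ℝ) / n - (1 - x0 t - x1 t)
        = -((a : ℝ) / n - x0 t) - ((b : ℝ) / n - x1 t) := by ring
      rw [this]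
      calc |-((a : ℝ) / n - x0 t) - ((b : ℝ) / n - x1 t)|
          ≤ |-((a : ℝ) / n - x0 t)| + |(b : ℝ) / n - x1 t| := abs_sub _ _
        _ = _ := by rw [abs_neg]
    have h4 : |(a : ℝ) / n - x0 t| + |(b : ℝ) / n - x1 t| ≤ ε + Ph x0 x1 n t a b / ε := by
      have k : ∀ y : ℝ, |y| ≤ ε / 2 + y ^ 2 / ε := by
        intro y
        rw [← sq_abs y]
        have : |y| * ε ≤ ε ^ 2 / 2 + |y| ^ 2 := by nlinarith [sq_nonneg (|y| - ε / 2), sq_nonneg |y|, sq_nonneg ε]
        have h5 : |y| = |y| * ε / ε := by field_simp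
        calc |y| = |y| * ε / ε := h5
          _ ≤ (ε ^ 2 / 2 + |y| ^ 2) / ε := by gcongr
          _ = ε / 2 + |y| ^ 2 / ε := by field_simp
      have k1 := k ((a : ℝ) / n - x0 t)
      have k2 := k ((b : ℝ) / n - x1 t)
      unfold Ph
      rw [add_div]
      linarith
    have h5 : (((F.descFactorial d : ℕ) : ℝ) / N) = tk n F d := rfl
    rw [h5]
    have hd0 : (0 : ℝ) ≤ d := by positivity
    calc |tk n F d - f ^ d| = |(tk n F d - ((F : ℝ) / n) ^ d) + (((F : ℝ) / n) ^ d - f ^ d)| := by ring_nf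
      _ ≤ |tk n F d - ((F : ℝ) / n) ^ d| + |((F : ℝ) / n) ^ d - f ^ d| := abs_add_le _ _
      _ ≤ d * (2 * d / n) + d * (ε + Ph x0 x1 n t a b / ε) := by
          have := h2.trans (mul_le_mul_of_nonneg_left (h3.trans h4) hd0)
          linarith
      _ = _ := by ring
  have hms := ms_bound T n hd hn i hi
  rw [← ht, ← hN] at hms
  have hmain : 1 - (Es n d i fun a b => ((n - a - b).descFactorial d : ℝ) / N) / N ^ i - (1 - f ^ d)
      = - (∑ Lf : Fin i → (Fin d ↪ Fin n),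
        (((((n - Z0 (load 2 i Lf) - Z1 (load 2 i Lf)).descFactorial d : ℕ) : ℝ) / N) - f ^ d)) / N ^ i := by
    rw [Finset.sum_sub_distrib, Finset.sum_const, nsmul_eq_mul, hcard]
    unfold Es
    have : N ^ i ≠ 0 := by positivity
    field_simp
    ring
  rw [hmain, abs_div, abs_neg, abs_of_pos (by positivity : (0:ℝ) < N ^ i), div_le_iff₀ (by positivity)]
  calc |∑ Lf : Fin i → (Fin d ↪ Fin n),
        (((((n - Z0 (load 2 i Lf) - Z1 (load 2 i Lf)).descFactorial d : ℕ) : ℝ) / N) - f ^ d)|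
      ≤ ∑ Lf : Fin i → (Fin d ↪ Fin n),
        |(((((n - Z0 (load 2 i Lf) - Z1 (load 2 i Lf)).descFactorial d : ℕ) : ℝ) / N) - f ^ d)| :=
        abs_sum_le_sum_abs _ _
    _ ≤ ∑ Lf : Fin i → (Fin d ↪ Fin n),
        (2 * (d : ℝ) ^ 2 / n + d * (ε + Ph x0 x1 n t (Z0 (load 2 i Lf)) (Z1 (load 2 i Lf)) / ε)) :=
        Finset.sum_le_sum fun Lf _ => hpt Lf
    _ = N ^ i * (2 * (d : ℝ) ^ 2 / n + d * ε) + d * (Es n d i (Ph x0 x1 n t)) / ε := by
        have hsd : ∑ Lf : Fin i → (Fin d ↪ Fin n),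
            Ph x0 x1 n t (Z0 (load 2 i Lf)) (Z1 (load 2 i Lf)) / ε = Es n d i (Ph x0 x1 n t) / ε := by
          unfold Es
          rw [← Finset.sum_div]
        rw [Finset.sum_add_distrib, ← Finset.mul_sum, Finset.sum_add_distrib, hsd,
          Finset.sum_const, Finset.sum_const, nsmul_eq_mul, nsmul_eq_mul, hcard]
        ring
    _ ≤ N ^ i * (2 * (d : ℝ) ^ 2 / n + d * ε)
        + d * (N ^ i * (2 * C1 d L * Real.exp (16 * (d : ℝ) ^ 2) / n)) / ε := by gcongr
    _ = _ := by ring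

/-- the limit of the matching probability of the last student -/
theorem prob_tendsto (T : Traj d x0 x1 L) (hd : 1 ≤ d) :
    Tendsto (fun n : ℕ => probMatched n d 2 (2 * n - 1)) atTop (𝓝 (1 - (1 - x0 2 - x1 2) ^ d)) := by
  have hC1 : 0 ≤ C1 d L := by unfold C1; have := T.hL; positivity
  set C : ℝ := 2 * C1 d L * Real.exp (16 * (d : ℝ) ^ 2) with hC
  have hinv : Tendsto (fun n : ℕ => (1 : ℝ) / n) atTop (𝓝 0) := tendsto_one_div_atTop_nhds_zero_nat
  have ht : Tendsto (fun n : ℕ => ((2 * n - 1 : ℕ) : ℝ) / n) atTop (𝓝 2) := by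
    have h1 : Tendsto (fun n : ℕ => 2 - (1 : ℝ) / n) atTop (𝓝 (2 - 0)) := tendsto_const_nhds.sub hinv
    rw [sub_zero] at h1
    refine h1.congr' ?_
    filter_upwards [eventually_ge_atTop 1] with n hn
    have hnr : (0 : ℝ) < n := by exact_mod_cast hn
    rw [Nat.cast_sub (by omega)]
    push_cast
    field_simp
  have hlim : Tendsto (fun n : ℕ => (1 - (1 - x0 (((2 * n - 1 : ℕ) : ℝ) / n) - x1 (((2 * n - 1 : ℕ) : ℝ) / n)) ^ d))
      atTop (𝓝 (1 - (1 - x0 2 - x1 2) ^ d)) := by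
    have hc : Continuous fun t : ℝ => 1 - (1 - x0 t - x1 t) ^ d := by
      have := T.c0; have := T.c1; fun_prop
    exact (hc.tendsto 2).comp ht
  have hdiff : Tendsto (fun n : ℕ => probMatched n d 2 (2 * n - 1) -
      (1 - (1 - x0 (((2 * n - 1 : ℕ) : ℝ) / n) - x1 (((2 * n - 1 : ℕ) : ℝ) / n)) ^ d)) atTop (𝓝 0) := by
    have hb : Tendsto (fun n : ℕ => 2 * (d : ℝ) ^ 2 * (1 / n) + d * (1 + C) * Real.sqrt (1 / n)) atTop (𝓝 0) := by
      have h1 : Tendsto (fun n : ℕ => Real.sqrt (1 / n)) atTop (𝓝 0) := by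
        have h0 := (Real.continuous_sqrt.tendsto 0).comp hinv
        rw [Real.sqrt_zero] at h0
        exact h0
      have := (hinv.const_mul (2 * (d : ℝ) ^ 2)).add (h1.const_mul (d * (1 + C)))
      simpa using this
    refine squeeze_zero_norm' ?_ hb
    filter_upwards [eventually_ge_atTop (2 * d + 1)] with n hn
    have hnr : (0 : ℝ) < n := by
      have : 0 < n := by omega
      exact_mod_cast this
    rw [Real.norm_eq_abs]
    have hs : 0 < Real.sqrt (1 / n) := Real.sqrt_pos.mpr (by positivity)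
    refine (prob_close T n hd (by omega) (2 * n - 1) (by omega) (Real.sqrt (1 / n)) hs).trans ?_
    have hss : Real.sqrt (1 / n) * Real.sqrt (1 / n) = 1 / n := Real.mul_self_sqrt (by positivity)
    have : (C / n) / Real.sqrt (1 / n) = C * Real.sqrt (1 / n) := by
      rw [div_eq_iff hs.ne', mul_assoc, hss]; ring
    rw [← hC, this]
    apply le_of_eq
    ring
  have := hdiff.add hlim
  simpa using this

end Pool.Agent.V113.Ser
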