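import Mathlib

set_option autoImplicit false

namespace Pool.Agent.V113.Ser

/-- The school at which a student with preference list `L` (best school first) takes a seat, when
`c v` seats of school `v` are taken and each school has `q` seats: the first school of the list
that still has a free seat (`none` if all schools of the list are full). -/
def seat (q : ℕ) {n d : ℕ} (c : Fin n → ℕ) (L : Fin d ↪ Fin n) : Option (Fin n) :=
  (List.ofFn fun k => L k).find? (fun v => decide (c v < q))

/-- The number of taken seats of each school after the first `i` students, whose preference lists
are `L 0, ..., L (i-1)`, have acted one after the other. -/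
def load (q : ℕ) {n d : ℕ} : (i : ℕ) → (Fin i → (Fin d ↪ Fin n)) → Fin n → ℕ
  | 0, _ => fun _ => 0
  | i + 1, L => fun v =>
      load q i (fun j => L j.castSucc) v +
        if seat q (load q i (fun j => L j.castSucc)) (L (Fin.last i)) = some v then 1 else 0

/-- The probability that student number `i + 1` is matched: the fraction of all profiles of
preference lists of the first `i + 1` students for which this student finds a free seat. -/
noncomputable def probMatched (n d q i : ℕ) : ℝ :=
  ((Finset.univ.filter fun L : Fin (i + 1) → (Fin d ↪ Fin n) =>
      (seat q (load q i (fun j => L j.castSucc)) (L (Fin.last i))).isSome = true).card : ℝ) /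
    (Fintype.card (Fin (i + 1) → (Fin d ↪ Fin n)) : ℝ)

end Pool.Agent.V113.Ser
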